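import Pool.Agent.R966.FBM.Defs

set_option autoImplicit false

open scoped ENNReal NNReal Topology
open MeasureTheory ProbabilityTheory Set Filter
open Pool.Agent.R967.FB

namespace Pool.Agent.R966.FBM

/-- the set in the definition of `age` -/
def ageSet (d : ℝ≥0) (y : C(ℝ≥0, ℝ)) (t : ℝ≥0) : Set ℝ≥0 :=
  {a | a ≤ d ∧ (a = d ∨ y (t + a + d) ≤ y (t + a))}

lemma age_eq (d : ℝ≥0) (y : C(ℝ≥0, ℝ)) (t : ℝ≥0) : age d y t = sInf (ageSet d y t) := rfl

lemma ageSet_closed (d : ℝ≥0) (y : C(ℝ≥0, ℝ)) (t : ℝ≥0) : IsClosed (ageSet d y t) := by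
  have h1 : IsClosed {a : ℝ≥0 | a ≤ d} := isClosed_Iic
  have h2 : IsClosed {a : ℝ≥0 | a = d} := isClosed_singleton
  have h3 : IsClosed {a : ℝ≥0 | y (t + a + d) ≤ y (t + a)} := by
    apply isClosed_le <;> fun_prop
  exact h1.inter (h2.union h3)

lemma mem_ageSet (d : ℝ≥0) (y : C(ℝ≥0, ℝ)) (t : ℝ≥0) : d ∈ ageSet d y t := ⟨le_rfl, Or.inl rfl⟩

lemma age_mem (d : ℝ≥0) (y : C(ℝ≥0, ℝ)) (t : ℝ≥0) : age d y t ∈ ageSet d y t :=
  (ageSet_closed d y t).csInf_mem ⟨d, mem_ageSet d y t⟩ (OrderBot.bddBelow _)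

lemma age_le (d : ℝ≥0) (y : C(ℝ≥0, ℝ)) (t : ℝ≥0) : age d y t ≤ d := (age_mem d y t).1

lemma age_prop {d : ℝ≥0} {y : C(ℝ≥0, ℝ)} {t : ℝ≥0} (h : age d y t < d) :
    y (t + age d y t + d) ≤ y (t + age d y t) :=
  (age_mem d y t).2.resolve_left h.ne

lemma age_le_of_mem {d : ℝ≥0} {y : C(ℝ≥0, ℝ)} {t a : ℝ≥0} (h : a ∈ ageSet d y t) :
    age d y t ≤ a := csInf_le (OrderBot.bddBelow _) h

lemma lt_of_lt_age {d : ℝ≥0} {y : C(ℝ≥0, ℝ)} {t a : ℝ≥0} (h : a < age d y t) :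
    y (t + a) < y (t + a + d) := by
  by_contra hc
  push Not at hc
  have : a ∈ ageSet d y t := ⟨h.le.trans (age_le d y t), Or.inr hc⟩
  exact absurd (age_le_of_mem this) (not_le.2 h)

lemma age_congr {d : ℝ≥0} {y y' : C(ℝ≥0, ℝ)} {t t' : ℝ≥0}
    (h : ∀ a ≤ d, (y (t + a + d) ≤ y (t + a) ↔ y' (t' + a + d) ≤ y' (t' + a))) :
    age d y t = age d y' t' := by
  unfold age
  congr 1
  ext a
  simp only [mem_ofPred_eq]
  constructor
  · rintro ⟨h1, h2⟩
    exact ⟨h1, h2.imp_right (h a h1).1⟩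
  · rintro ⟨h1, h2⟩
    exact ⟨h1, h2.imp_right (h a h1).2⟩

lemma age_shift (d : ℝ≥0) (y : C(ℝ≥0, ℝ)) (c t : ℝ≥0) :
    age d y (c + t) = age d (shift c y) t := by
  apply age_congr
  intro a _
  simp only [shift_apply, add_assoc]
  constructor <;> intro h <;> linarith

lemma add_age_mono (d : ℝ≥0) (y : C(ℝ≥0, ℝ)) {t t' : ℝ≥0} (h : t ≤ t') :
    t + age d y t ≤ t' + age d y t' := by
  by_contra hc
  push Not at hc
  set u := t' + age d y t' with hu
  have h1 : t ≤ u := h.trans le_self_add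
  have h2 : u - t < age d y t := by
    rw [tsub_lt_iff_left h1]; exact hc
  have h3 := lt_of_lt_age h2
  rw [add_tsub_cancel_of_le h1] at h3
  rcases lt_or_eq_of_le (age_le d y t') with h4 | h4
  · have h5 := age_prop h4
    rw [← hu] at h5
    exact absurd h5 (not_le.2 h3)
  · have h6 : t + age d y t ≤ u := by
      rw [hu, h4]
      exact add_le_add h (age_le d y t)
    exact absurd h6 (not_le.2 hc)

lemma pos_succ (y : C(ℝ≥0, ℝ)) (L : ℝ≥0) (j : ℕ) :
    pos y L (j + 1) = (pos y L j + 2 * j) + (dd j + age (dd j) y (pos y L j + 2 * j)) := rfl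

lemma pos_mono (y : C(ℝ≥0, ℝ)) {L L' : ℝ≥0} (h : L ≤ L') (j : ℕ) : pos y L j ≤ pos y L' j := by
  induction j with
  | zero => exact h
  | succ j ih =>
    rw [pos_succ, pos_succ]
    have h1 : pos y L j + 2 * (j:ℝ≥0) ≤ pos y L' j + 2 * (j:ℝ≥0) := by gcongr
    have h2 := add_age_mono (dd j) y h1
    calc (pos y L j + 2 * (j:ℝ≥0)) + (dd j + age (dd j) y (pos y L j + 2 * j))
        = dd j + ((pos y L j + 2 * (j:ℝ≥0)) + age (dd j) y (pos y L j + 2 * j)) := by ring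
      _ ≤ dd j + ((pos y L' j + 2 * (j:ℝ≥0)) + age (dd j) y (pos y L' j + 2 * j)) := by gcongr
      _ = _ := by ring

lemma dd_le (j : ℕ) : dd j ≤ 1 / 2 := by
  unfold dd
  calc ((1:ℝ≥0) / 2) ^ ((Nat.unpair j).1 + 1) ≤ (1 / 2) ^ 1 := by
        apply pow_le_pow_of_le_one zero_le _ (by omega)
        norm_num
        
    _ = 1 / 2 := pow_one _

lemma dd_pos (j : ℕ) : 0 < dd j := by unfold dd; positivity

/-- lower bound for the position -/
lemma le_pos (y : C(ℝ≥0, ℝ)) (L : ℝ≥0) (j : ℕ) :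
    ((j * (j - 1) : ℕ) : ℝ≥0) ≤ pos y L j := by
  induction j with
  | zero => simp
  | succ j ih =>
    rw [pos_succ]
    have h1 : (((j + 1) * (j + 1 - 1) : ℕ) : ℝ≥0) ≤ ((j * (j - 1) : ℕ) : ℝ≥0) + 2 * j := by
      rcases j with _ | j
      · simp
      · norm_cast
        simp only [Nat.add_sub_cancel]
        nlinarith
    refine h1.trans ?_
    refine le_trans ?_ le_self_add
    gcongr

/-- upper bound for the position -/
lemma pos_le (y : C(ℝ≥0, ℝ)) (L : ℝ≥0) (j : ℕ) :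
    pos y L j ≤ L + ((j * j : ℕ) : ℝ≥0) := by
  induction j with
  | zero => simp [pos]
  | succ j ih =>
    rw [pos_succ]
    have h1 : age (dd j) y (pos y L j + 2 * j) ≤ 1 / 2 := (age_le _ _ _).trans (dd_le j)
    calc (pos y L j + 2 * (j:ℝ≥0)) + (dd j + age (dd j) y (pos y L j + 2 * j))
        ≤ ((L + ((j * j : ℕ) : ℝ≥0)) + 2 * (j:ℝ≥0)) + (1 / 2 + 1 / 2) := by
          gcongr
          exact dd_le j
      _ = L + (((j + 1) * (j + 1) : ℕ) : ℝ≥0) := by
          push_cast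
          rw [add_halves]
          ring

/-- the position depends only on the path up to the position -/
lemma pos_congr {y y' : C(ℝ≥0, ℝ)} {c : ℝ≥0} (h : ∀ t ≤ c, y t = y' t) {L : ℝ≥0} :
    ∀ j : ℕ, L + ((j * j : ℕ) : ℝ≥0) ≤ c → pos y L j = pos y' L j := by
  intro j
  induction j with
  | zero => intro _; rfl
  | succ j ih =>
    intro hc
    have hjj : ((j * j : ℕ) : ℝ≥0) ≤ (((j + 1) * (j + 1) : ℕ) : ℝ≥0) := by
      norm_cast
      nlinarith
    have h1 : pos y L j = pos y' L j := ih (le_trans (by gcongr) hc)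
    rw [pos_succ, pos_succ, h1]
    congr 2
    apply age_congr
    intro a ha
    have hb : pos y' L j + 2 * j + a + dd j ≤ c := by
      refine le_trans ?_ hc
      calc pos y' L j + 2 * (j:ℝ≥0) + a + dd j
          ≤ (L + ((j * j : ℕ) : ℝ≥0)) + 2 * (j:ℝ≥0) + 1 / 2 + 1 / 2 := by
            gcongr
            · exact pos_le _ _ _
            · exact ha.trans (dd_le j)
            · exact dd_le j
        _ = L + (((j + 1) * (j + 1) : ℕ) : ℝ≥0) := by
            push_cast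
            rw [add_assoc _ (1/2 : ℝ≥0), add_halves]
            ring
    rw [h _ hb, h _ (le_self_add.trans hb)]

end Pool.Agent.R966.FBM
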