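import Pool.Agent.R966.FBM.Step

set_option autoImplicit false

open scoped ENNReal NNReal Topology
open MeasureTheory ProbabilityTheory Set Filter
open Pool.Agent.R967.FB

namespace Pool.Agent.R966.FBM

variable {W : Measure C(ℝ≥0, ℝ)}

lemma measurable_exp_len (L : ℝ≥0) (j : ℕ) (lam : ℝ) :
    Measurable (fun w => Real.exp (-lam * len L j w)) :=
  Real.measurable_exp.comp ((measurable_len L j).const_mul _)

lemma integrable_exp_len (hW : IsWiener W) (L : ℝ≥0) (j : ℕ) {lam : ℝ} (hlam : 0 ≤ lam)
    {g : ℝ → ℝ} (hg : Measurable g) {C : ℝ} (hg0 : ∀ z, 0 ≤ g z) (hgC : ∀ z, g z ≤ C) :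
    Integrable (fun w => Real.exp (-lam * len L j w) * g (len L j w)) W := by
  have hWp : IsProbabilityMeasure W := hW.isGaussianProcess.isProbabilityMeasure
  refine Integrable.of_bound ((measurable_exp_len L j lam).mul
    (hg.comp (measurable_len L j))).aestronglyMeasurable C (Eventually.of_forall fun w => ?_)
  rw [Real.norm_eq_abs, abs_mul, abs_of_pos (Real.exp_pos _), abs_of_nonneg (hg0 _)]
  have h1 : Real.exp (-lam * len L j w) ≤ 1 := by
    apply Real.exp_le_one_iff.2
    nlinarith [len_nonneg L j w]
  calc Real.exp (-lam * len L j w) * g (len L j w) ≤ 1 * C := by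
        apply mul_le_mul h1 (hgC _) (hg0 _) zero_le_one
    _ = C := one_mul C

lemma integrable_exp_len1 (hW : IsWiener W) (L : ℝ≥0) (j : ℕ) {lam : ℝ} (hlam : 0 ≤ lam) :
    Integrable (fun w => Real.exp (-lam * len L j w)) W := by
  have := integrable_exp_len hW L j hlam (g := fun _ => 1) measurable_const (C := 1)
    (fun _ => zero_le_one) (fun _ => le_rfl)
  simpa using this

lemma stepR (hW : IsWiener W) (L : ℝ≥0) (j : ℕ) (hL : L ≤ j) {lam : ℝ} (hlam : 0 ≤ lam)
    {g : ℝ → ℝ} (hg : Measurable g) {C : ℝ} (hg0 : ∀ z, 0 ≤ g z) (hgC : ∀ z, g z ≤ C)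
    (hG : ∀ x y : ℝ≥0, y ≤ x → ENNReal.ofReal (g ((x : ℝ) - y)) ≤
      ∫⁻ v, ENNReal.ofReal (Real.exp (-lam * ((age (dd j) v x : ℝ) - age (dd j) v y))) ∂W) :
    ∫ w, Real.exp (-lam * len L j w) * g (len L j w) ∂W ≤
      ∫ w, Real.exp (-lam * len L (j + 1) w) ∂W := by
  have h := step hW L j hL lam (fun z => ENNReal.ofReal (g z)) hg.ennreal_ofReal hG
  have e1 : ∫⁻ w, ENNReal.ofReal (Real.exp (-lam * len L j w)) *
      ENNReal.ofReal (g (len L j w)) ∂W =
      ENNReal.ofReal (∫ w, Real.exp (-lam * len L j w) * g (len L j w) ∂W) := by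
    rw [ofReal_integral_eq_lintegral_ofReal (integrable_exp_len hW L j hlam hg hg0 hgC)
      (Eventually.of_forall fun w => mul_nonneg (Real.exp_pos _).le (hg0 _))]
    apply lintegral_congr
    intro w
    rw [ENNReal.ofReal_mul (Real.exp_pos _).le]
  have e2 : ∫⁻ w, ENNReal.ofReal (Real.exp (-lam * len L (j + 1) w)) ∂W =
      ENNReal.ofReal (∫ w, Real.exp (-lam * len L (j + 1) w) ∂W) :=
    (ofReal_integral_eq_lintegral_ofReal (integrable_exp_len1 hW L (j + 1) hlam)
      (Eventually.of_forall fun w => (Real.exp_pos _).le)).symm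
  rw [e1, e2] at h
  exact (ENNReal.ofReal_le_ofReal_iff (integral_nonneg fun w => (Real.exp_pos _).le)).1 h

/-- the Laplace transform is nondecreasing -/
lemma laplace_mono (hW : IsWiener W) (L : ℝ≥0) (j : ℕ) (hL : L ≤ j) {lam : ℝ} (hlam : 0 ≤ lam) :
    ∫ w, Real.exp (-lam * len L j w) ∂W ≤ ∫ w, Real.exp (-lam * len L (j + 1) w) ∂W := by
  have := stepR hW L j hL hlam (g := fun _ => 1) measurable_const (C := 1)
    (fun _ => zero_le_one) (fun _ => le_rfl) (fun x y _ => by
      rw [ENNReal.ofReal_one]
      exact one_le_exp_age hW _ _ _ _)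
  simpa using this

/-- the gain -/
lemma laplace_gain (hW : IsWiener W) {d : ℝ≥0} (hd : 0 < d) : ∃ h : ℝ, 0 < h ∧
    ∀ (L : ℝ≥0) (j : ℕ), L ≤ j → dd j = d →
    ∫ w, Real.exp (-len L j w) ∂W +
      h * ∫ w, Real.exp (-len L j w) * (if 2 * (d:ℝ) ≤ len L j w then 1 else 0) ∂W ≤
      ∫ w, Real.exp (-len L (j + 1) w) ∂W := by
  have h1 := one_lt_prod hW hd
  have h2 := prod_lt_top hW d
  set K := (E2 W d * E1 W d).toReal with hK
  have hK1 : 1 < K := by
    rw [hK, ← ENNReal.toReal_one]
    exact (ENNReal.toReal_lt_toReal ENNReal.one_ne_top h2.ne).2 h1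
  refine ⟨K - 1, by linarith, fun L j hL hdj => ?_⟩
  set g : ℝ → ℝ := fun z => 1 + (K - 1) * (if 2 * (d:ℝ) ≤ z then 1 else 0) with hg
  have hgm : Measurable g := by
    refine measurable_const.add (Measurable.const_mul ?_ _)
    exact Measurable.ite measurableSet_Ici measurable_const measurable_const
  have hg0 : ∀ z, 0 ≤ g z := by
    intro z
    simp only [hg]
    split_ifs <;> linarith
  have hgC : ∀ z, g z ≤ K := by
    intro z
    simp only [hg]
    split_ifs <;> linarith
  have key := stepR hW L j hL (lam := 1) zero_le_one hgm hg0 hgC (fun x y hxy => by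
    rw [hdj]
    simp only [hg]
    split_ifs with hz
    · have h3 : y + 2 * d ≤ x := by
        have : (y:ℝ) + 2 * d ≤ x := by linarith
        exact_mod_cast this
      rw [exp_age_far hW h3]
      have : 1 + (K - 1) * 1 = K := by ring
      rw [this, hK, ENNReal.ofReal_toReal h2.ne]
    · rw [mul_zero, add_zero, ENNReal.ofReal_one]
      exact one_le_exp_age hW _ _ _ _)
  have e1 : ∀ w : C(ℝ≥0, ℝ), Real.exp (-1 * len L j w) * g (len L j w) =
      Real.exp (-len L j w) + (K - 1) * (Real.exp (-len L j w) *
        (if 2 * (d:ℝ) ≤ len L j w then 1 else 0)) := by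
    intro w
    simp only [hg]
    rw [neg_one_mul]
    ring
  simp_rw [e1, neg_one_mul] at key
  have i1 : Integrable (fun w => Real.exp (-len L j w)) W := by
    simpa using integrable_exp_len1 hW L j (lam := 1) zero_le_one
  have i2 : Integrable (fun w => Real.exp (-len L j w) *
      (if 2 * (d:ℝ) ≤ len L j w then 1 else 0)) W := by
    have := integrable_exp_len hW L j (lam := 1) zero_le_one
      (g := fun z => if 2 * (d:ℝ) ≤ z then 1 else 0)
      (Measurable.ite measurableSet_Ici measurable_const measurable_const) (C := 1)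
      (fun z => by split_ifs <;> norm_num) (fun z => by split_ifs <;> norm_num)
    simpa using this
  rw [integral_add i1 (i2.const_mul _), integral_const_mul] at key
  exact key

/-- tightness -/
lemma tight (hW : IsWiener W) (L : ℝ≥0) (J : ℕ) (hJ : L ≤ J) {M : ℝ} (hM : 0 < M) (j : ℕ)
    (hj : J ≤ j) :
    W.real {w | M ≤ len L j w} * (1 - Real.exp (-1)) ≤ 1 - Real.exp (-((L + J) / M)) := by
  have hWp : IsProbabilityMeasure W := hW.isGaussianProcess.isProbabilityMeasure
  have hlam : 0 ≤ 1 / M := by positivity
  have hmono : ∫ w, Real.exp (-(1 / M) * len L J w) ∂W ≤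
      ∫ w, Real.exp (-(1 / M) * len L j w) ∂W := by
    induction j, hj using Nat.le_induction with
    | base => exact le_rfl
    | succ n hn ih =>
      refine ih.trans (laplace_mono hW L n (hJ.trans ?_) hlam)
      exact_mod_cast hn
  have hstart : Real.exp (-((L + J) / M)) ≤ ∫ w, Real.exp (-(1 / M) * len L J w) ∂W := by
    calc Real.exp (-((L + J) / M)) = ∫ _w, Real.exp (-((L + J) / M)) ∂W := by simp
      _ ≤ _ := by
        apply integral_mono (integrable_const _) (integrable_exp_len1 hW L J hlam)
        intro w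
        apply Real.exp_le_exp.2
        have h1 := len_le L J w
        have h2 : 1 / M * len L J w ≤ (L + J) / M := by
          rw [one_div, inv_mul_eq_div]
          gcongr
        linarith
  have hmeas : MeasurableSet {w | M ≤ len L j w} := measurableSet_le measurable_const
    (measurable_len L j)
  have hup : W.real {w | M ≤ len L j w} * (1 - Real.exp (-1)) ≤
      1 - ∫ w, Real.exp (-(1 / M) * len L j w) ∂W := by
    have e1 : 1 - ∫ w, Real.exp (-(1 / M) * len L j w) ∂W =
        ∫ w, (1 - Real.exp (-(1 / M) * len L j w)) ∂W := by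
      rw [integral_sub (integrable_const _) (integrable_exp_len1 hW L j hlam)]
      simp
    have e2 : W.real {w | M ≤ len L j w} * (1 - Real.exp (-1)) =
        ∫ w, ({w | M ≤ len L j w}).indicator (fun _ => (1 - Real.exp (-1))) w ∂W := by
      rw [integral_indicator hmeas]
      simp [measureReal_restrict_apply]
    rw [e1, e2]
    apply integral_mono
    · exact (integrable_const _).indicator hmeas
    · exact (integrable_const _).sub (integrable_exp_len1 hW L j hlam)
    · intro w
      simp only [indicator]
      split_ifs with hw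
      · have h1 : -(1 / M) * len L j w ≤ -1 := by
          have h2 : 1 ≤ 1 / M * len L j w := by
            rw [one_div, inv_mul_eq_div, le_div_iff₀ hM, one_mul]
            exact hw
          linarith
        have := Real.exp_le_exp.2 h1
        linarith
      · have h1 : Real.exp (-(1 / M) * len L j w) ≤ 1 := by
          apply Real.exp_le_one_iff.2
          nlinarith [len_nonneg L j w]
        linarith
  linarith

lemma dd_pair (i l : ℕ) : dd (Nat.pair i l) = (1 / 2) ^ (i + 1) := by
  unfold dd
  rw [Nat.unpair_pair]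

/-- the pointwise inequality -/
lemma pointwise {z d M : ℝ} (hz : 0 ≤ z) (hd : 0 < d) :
    1 - Real.exp (-z) ≤ (1 - Real.exp (-(2 * d))) + (if M ≤ z then 1 else 0) +
      Real.exp M * (Real.exp (-z) * (if 2 * d ≤ z then 1 else 0)) := by
  have h0 : Real.exp (-z) > 0 := Real.exp_pos _
  have h1 : Real.exp (-(2 * d)) ≤ 1 := Real.exp_le_one_iff.2 (by linarith)
  by_cases h2 : 2 * d ≤ z
  · by_cases h3 : M ≤ z
    · simp only [h2, h3, if_true]
      have : 0 ≤ Real.exp M * (Real.exp (-z) * 1) := by positivity
      linarith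
    · simp only [h2, h3, if_true, if_false]
      have h4 : 1 ≤ Real.exp M * (Real.exp (-z) * 1) := by
        rw [mul_one, ← Real.exp_add]
        apply Real.one_le_exp
        push Not at h3
        linarith
      linarith
  · push Not at h2
    have h4 : Real.exp (-(2 * d)) ≤ Real.exp (-z) := Real.exp_le_exp.2 (by linarith)
    have h5 : (0:ℝ) ≤ (if M ≤ z then 1 else 0) := by split_ifs <;> norm_num
    have h6 : 0 ≤ Real.exp M * (Real.exp (-z) * (if 2 * d ≤ z then 1 else 0)) := by
      simp [not_le.2 h2]
    linarith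

/-- the Laplace transform tends to one -/
theorem laplace_tendsto (hW : IsWiener W) (L : ℝ≥0) :
    Tendsto (fun j => ∫ w, Real.exp (-len L j w) ∂W) atTop (𝓝 1) := by
  have hWp : IsProbabilityMeasure W := hW.isGaussianProcess.isProbabilityMeasure
  set p : ℕ → ℝ := fun j => ∫ w, Real.exp (-len L j w) ∂W with hp
  obtain ⟨J, hJ⟩ := exists_nat_ge L
  have hmono : ∀ j, J ≤ j → p j ≤ p (j + 1) := by
    intro j hj
    have := laplace_mono hW L j (hJ.trans (by exact_mod_cast hj)) (lam := 1) zero_le_one
    simpa [hp] using this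
  have hp1 : ∀ j, p j ≤ 1 := by
    intro j
    calc p j ≤ ∫ _w, (1:ℝ) ∂W := by
          apply integral_mono _ (integrable_const _)
          · intro w
            exact Real.exp_le_one_iff.2 (by linarith [len_nonneg L j w])
          · simpa using integrable_exp_len1 hW L j (lam := 1) zero_le_one
      _ = 1 := by simp
  have hmono2 : ∀ i j, J ≤ i → i ≤ j → p i ≤ p j := by
    intro i j hi hij
    induction j, hij using Nat.le_induction with
    | base => exact le_rfl
    | succ n hn ih => exact ih.trans (hmono n (hi.trans hn))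
  -- convergence
  have hm : Monotone (fun n => p (J + n)) := fun a b hab =>
    hmono2 _ _ (Nat.le_add_right _ _) (by omega)
  obtain ⟨q, hq⟩ : ∃ q, Tendsto (fun n => p (J + n)) atTop (𝓝 q) :=
    ⟨_, tendsto_atTop_ciSup hm ⟨1, by rintro _ ⟨n, rfl⟩; exact hp1 _⟩⟩
  have hq' : Tendsto p atTop (𝓝 q) := by
    rw [← tendsto_add_atTop_iff_nat J]
    simpa [add_comm] using hq
  suffices hq1 : 1 - q ≤ 0 by
    have hle : q ≤ 1 := le_of_tendsto' hq' hp1
    have : q = 1 := by linarith
    rwa [this] at hq'
  -- main estimate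
  have main : ∀ (i : ℕ) (M : ℝ), 0 < M →
      1 - q ≤ (1 - Real.exp (-(2 * ((1/2 : ℝ)) ^ (i + 1)))) +
        (1 - Real.exp (-((L + J) / M))) / (1 - Real.exp (-1)) := by
    intro i M hM
    set d : ℝ≥0 := (1 / 2) ^ (i + 1) with hd
    have hdpos : 0 < d := by positivity
    have hdr : (d : ℝ) = (1/2 : ℝ) ^ (i + 1) := by rw [hd]; push_cast; ring
    obtain ⟨h, hh, hgain⟩ := laplace_gain hW hdpos
    have hJt : Tendsto (fun l => Nat.pair i l) atTop atTop :=
      tendsto_atTop_mono (fun l => Nat.right_le_pair i l) tendsto_id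
    -- D tends to zero
    set D : ℕ → ℝ := fun j => ∫ w, Real.exp (-len L j w) *
      (if 2 * (d:ℝ) ≤ len L j w then 1 else 0) ∂W with hD
    have hDn : ∀ j, 0 ≤ D j := by
      intro j
      apply integral_nonneg
      intro w
      positivity
    have hlim1 : Tendsto (fun l => (p (Nat.pair i l + 1) - p (Nat.pair i l)) / h) atTop
        (𝓝 ((q - q) / h)) := by
      refine Tendsto.div_const (Tendsto.sub ?_ ?_) h
      · exact (hq'.comp (tendsto_add_atTop_nat 1)).comp hJt
      · exact hq'.comp hJt
    rw [sub_self, zero_div] at hlim1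
    have hD0 : Tendsto (fun l => D (Nat.pair i l)) atTop (𝓝 0) := by
      refine squeeze_zero' (Eventually.of_forall fun l => hDn _) ?_ hlim1
      filter_upwards [hJt.eventually_ge_atTop J] with l hl
      have := hgain L (Nat.pair i l) (hJ.trans (by exact_mod_cast hl)) (dd_pair i l)
      rw [le_div_iff₀ hh]
      simp only [hp, hD]
      linarith
    have hexp1 : 0 < 1 - Real.exp (-1) := by
      have : Real.exp (-1) < 1 := by
        rw [← Real.exp_zero]
        exact Real.exp_lt_exp.2 (by norm_num)
      linarith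
    have hest : ∀ᶠ l in atTop, 1 - p (Nat.pair i l) ≤ (1 - Real.exp (-(2 * (d:ℝ)))) +
        (1 - Real.exp (-((L + J) / M))) / (1 - Real.exp (-1)) +
        Real.exp M * D (Nat.pair i l) := by
      filter_upwards [hJt.eventually_ge_atTop J] with l hl
      set j := Nat.pair i l
      have htight := tight hW L J hJ hM j hl
      have hmeas : MeasurableSet {w | M ≤ len L j w} := measurableSet_le measurable_const
        (measurable_len L j)
      have i1 : Integrable (fun w => Real.exp (-len L j w)) W := by
        simpa using integrable_exp_len1 hW L j (lam := 1) zero_le_one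
      have i2 : Integrable (fun w => Real.exp (-len L j w) *
          (if 2 * (d:ℝ) ≤ len L j w then 1 else 0)) W := by
        have := integrable_exp_len hW L j (lam := 1) zero_le_one
          (g := fun z => if 2 * (d:ℝ) ≤ z then 1 else 0)
          (Measurable.ite measurableSet_Ici measurable_const measurable_const) (C := 1)
          (fun z => by split_ifs <;> norm_num) (fun z => by split_ifs <;> norm_num)
        simpa using this
      have i3 : Integrable (fun w => if M ≤ len L j w then (1:ℝ) else 0) W := by
        have : (fun w => if M ≤ len L j w then (1:ℝ) else 0) =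
            ({w | M ≤ len L j w}).indicator (fun _ => (1:ℝ)) := by
          funext w
          simp [indicator]
        rw [this]
        exact (integrable_const _).indicator hmeas
      have e3 : ∫ w, (if M ≤ len L j w then (1:ℝ) else 0) ∂W = W.real {w | M ≤ len L j w} := by
        have : (fun w => if M ≤ len L j w then (1:ℝ) else 0) =
            ({w | M ≤ len L j w}).indicator (fun _ => (1:ℝ)) := by
          funext w
          simp [indicator]
        rw [this, integral_indicator hmeas]
        simp [measureReal_restrict_apply]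
      have e4 : 1 - p j = ∫ w, (1 - Real.exp (-len L j w)) ∂W := by
        rw [integral_sub (integrable_const _) i1]
        simp [hp]
      have h5 : 1 - p j ≤ ∫ w, ((1 - Real.exp (-(2 * (d:ℝ)))) +
          (if M ≤ len L j w then (1:ℝ) else 0) + Real.exp M * (Real.exp (-len L j w) *
          (if 2 * (d:ℝ) ≤ len L j w then 1 else 0))) ∂W := by
        rw [e4]
        apply integral_mono ((integrable_const _).sub i1)
          (((integrable_const _).add i3).add (i2.const_mul _))
        intro w
        exact pointwise (len_nonneg L j w) (by exact_mod_cast hdpos)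
      have j1 : Integrable (fun w => (1 - Real.exp (-(2 * (d:ℝ)))) +
          (if M ≤ len L j w then (1:ℝ) else 0)) W := (integrable_const _).add i3
      rw [integral_add j1 (i2.const_mul _),
        integral_add (integrable_const _) i3, integral_const_mul, e3] at h5
      have h6 : W.real {w | M ≤ len L j w} ≤
          (1 - Real.exp (-((L + J) / M))) / (1 - Real.exp (-1)) := by
        rw [le_div_iff₀ hexp1]
        exact htight
      simp only [integral_const, probReal_univ, smul_eq_mul, one_mul] at h5
      simp only [hD]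
      linarith
    have hlimL : Tendsto (fun l => 1 - p (Nat.pair i l)) atTop (𝓝 (1 - q)) :=
      tendsto_const_nhds.sub (hq'.comp hJt)
    have hlimR : Tendsto (fun l => (1 - Real.exp (-(2 * (d:ℝ)))) +
        (1 - Real.exp (-((L + J) / M))) / (1 - Real.exp (-1)) +
        Real.exp M * D (Nat.pair i l)) atTop (𝓝 ((1 - Real.exp (-(2 * (d:ℝ)))) +
        (1 - Real.exp (-((L + J) / M))) / (1 - Real.exp (-1)) + Real.exp M * 0)) :=
      tendsto_const_nhds.add (hD0.const_mul _)
    have := le_of_tendsto_of_tendsto hlimL hlimR hest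
    rw [hdr, mul_zero, add_zero] at this
    exact this
  -- let i and M tend to infinity
  have lim1 : Tendsto (fun n : ℕ => (1 - Real.exp (-(2 * ((1/2 : ℝ)) ^ (n + 1)))) +
      (1 - Real.exp (-((L + J) / ((n:ℝ) + 1)))) / (1 - Real.exp (-1))) atTop
      (𝓝 ((1 - Real.exp (-(2 * 0))) + (1 - Real.exp (-0)) / (1 - Real.exp (-1)))) := by
    have t1 : Tendsto (fun n : ℕ => ((1/2 : ℝ)) ^ (n + 1)) atTop (𝓝 0) :=
      (tendsto_pow_atTop_nhds_zero_of_lt_one (by norm_num) (by norm_num)).comp
        (tendsto_add_atTop_nat 1)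
    have t2 : Tendsto (fun n : ℕ => ((L:ℝ) + J) / ((n:ℝ) + 1)) atTop (𝓝 0) := by
      have t3 : Tendsto (fun n : ℕ => (n:ℝ) + 1) atTop atTop :=
        tendsto_atTop_add_const_right _ _ tendsto_natCast_atTop_atTop
      exact t3.const_div_atTop _
    have c1 : Tendsto (fun n : ℕ => 1 - Real.exp (-(2 * ((1/2 : ℝ)) ^ (n + 1)))) atTop
        (𝓝 (1 - Real.exp (-(2 * 0)))) :=
      tendsto_const_nhds.sub ((Real.continuous_exp.tendsto _).comp (t1.const_mul 2).neg)
    have c2 : Tendsto (fun n : ℕ => (1 - Real.exp (-(((L:ℝ) + J) / ((n:ℝ) + 1)))) /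
        (1 - Real.exp (-1))) atTop (𝓝 ((1 - Real.exp (-0)) / (1 - Real.exp (-1)))) :=
      (tendsto_const_nhds.sub ((Real.continuous_exp.tendsto _).comp t2.neg)).div_const _
    exact c1.add c2
  have := ge_of_tendsto' lim1 (fun n => main n ((n:ℝ) + 1) (by positivity))
  simpa using this

/-- the core statement -/
theorem core : Core := by
  intro W hW L r hr
  have hWp : IsProbabilityMeasure W := hW.isGaussianProcess.isProbabilityMeasure
  have hset : ∀ j, {w : C(ℝ≥0, ℝ) | r + pos w 0 j ≤ pos w L j} = {w | (r:ℝ) ≤ len L j w} := by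
    intro j
    ext w
    simp only [mem_ofPred_eq, len]
    rw [← NNReal.coe_le_coe]
    push_cast
    constructor <;> intro h <;> linarith
  simp_rw [hset]
  have hrr : (0:ℝ) < r := by exact_mod_cast hr
  have hexp : 0 < 1 - Real.exp (-(r:ℝ)) := by
    have : Real.exp (-(r:ℝ)) < 1 := by
      rw [← Real.exp_zero]
      exact Real.exp_lt_exp.2 (by linarith)
    linarith
  have hbound : ∀ j, W.real {w | (r:ℝ) ≤ len L j w} ≤
      (1 - ∫ w, Real.exp (-len L j w) ∂W) / (1 - Real.exp (-(r:ℝ))) := by
    intro j
    rw [le_div_iff₀ hexp]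
    have i1 : Integrable (fun w => Real.exp (-len L j w)) W := by
      simpa using integrable_exp_len1 hW L j (lam := 1) zero_le_one
    have hmeas : MeasurableSet {w | (r:ℝ) ≤ len L j w} := measurableSet_le measurable_const
      (measurable_len L j)
    have e1 : 1 - ∫ w, Real.exp (-len L j w) ∂W =
        ∫ w, (1 - Real.exp (-len L j w)) ∂W := by
      rw [integral_sub (integrable_const _) i1]
      simp
    have e2 : W.real {w | (r:ℝ) ≤ len L j w} * (1 - Real.exp (-(r:ℝ))) =
        ∫ w, ({w | (r:ℝ) ≤ len L j w}).indicator (fun _ => (1 - Real.exp (-(r:ℝ)))) w ∂W := by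
      rw [integral_indicator hmeas]
      simp [measureReal_restrict_apply]
    rw [e1, e2]
    apply integral_mono
    · exact (integrable_const _).indicator hmeas
    · exact (integrable_const _).sub i1
    · intro w
      simp only [indicator]
      split_ifs with hw
      · have h2 : (r:ℝ) ≤ len L j w := hw
        have := Real.exp_le_exp.2 (neg_le_neg h2)
        linarith
      · have h1 : Real.exp (-len L j w) ≤ 1 := by
          apply Real.exp_le_one_iff.2
          linarith [len_nonneg L j w]
        linarith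
  have hlim : Tendsto (fun j => (1 - ∫ w, Real.exp (-len L j w) ∂W) / (1 - Real.exp (-(r:ℝ))))
      atTop (𝓝 0) := by
    have := ((tendsto_const_nhds (x := (1:ℝ))).sub (laplace_tendsto hW L)).div_const
      (1 - Real.exp (-(r:ℝ)))
    simpa using this
  have hreal : Tendsto (fun j => W.real {w | (r:ℝ) ≤ len L j w}) atTop (𝓝 0) :=
    squeeze_zero (fun j => measureReal_nonneg) hbound hlim
  have := ENNReal.tendsto_ofReal hreal
  rw [ENNReal.ofReal_zero] at this
  refine this.congr fun j => ?_
  exact ENNReal.ofReal_toReal (measure_ne_top _ _)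

end Pool.Agent.R966.FBM
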