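import Pool.Agent.R966.FBM.Stmts

set_option autoImplicit false

open scoped ENNReal NNReal Topology
open MeasureTheory ProbabilityTheory Set Filter

namespace Pool.Agent.R966.FBM

namespace FFilt

variable {Ω : Type} [mΩ : MeasurableSpace Ω]

/-- The information up to the time `u`. -/
@[instance_reducible]
def raw (B : ℝ≥0 → Ω → ℝ) (u : ℝ≥0) : MeasurableSpace Ω :=
  MeasurableSpace.comap (fun ω (t : Iic u) => B t ω) inferInstance

/-- The information after the time `u`. -/
@[instance_reducible]
def aft (B : ℝ≥0 → Ω → ℝ) (u : ℝ≥0) : MeasurableSpace Ω :=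
  MeasurableSpace.comap (fun ω (t : ℝ≥0) => B (u + t) ω - B u ω) inferInstance

/-- The completed information up to the time `u`. -/
@[instance_reducible]
def comp (P : Measure Ω) (B : ℝ≥0 → Ω → ℝ) (u : ℝ≥0) : MeasurableSpace Ω :=
  eventuallyMeasurableSpace (raw B u) (ae P) ⊓ mΩ

lemma raw_le {B : ℝ≥0 → Ω → ℝ} (hm : ∀ t, Measurable (B t)) (u : ℝ≥0) : raw B u ≤ mΩ :=
  (measurable_pi_lambda _ fun t : Iic u => hm t).comap_le

lemma aft_le {B : ℝ≥0 → Ω → ℝ} (hm : ∀ t, Measurable (B t)) (u : ℝ≥0) : aft B u ≤ mΩ :=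
  (measurable_pi_lambda _ fun t : ℝ≥0 => (hm (u + t)).sub (hm u)).comap_le

lemma raw_le_comp {P : Measure Ω} {B : ℝ≥0 → Ω → ℝ} (hm : ∀ t, Measurable (B t)) (u : ℝ≥0) :
    raw B u ≤ comp P B u := by
  refine le_inf ?_ (raw_le hm u)
  intro s hs
  exact ⟨s, hs, Filter.EventuallyEq.rfl⟩

omit mΩ in
lemma measurable_raw (B : ℝ≥0 → Ω → ℝ) {t u : ℝ≥0} (h : t ≤ u) : Measurable[raw B u] (B t) := by
  have h1 : Measurable[raw B u] (fun ω (t : Iic u) => B t ω) := comap_measurable _
  exact (measurable_pi_apply (⟨t, h⟩ : Iic u)).comp h1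

/-- The filtration. -/
def filt (P : Measure Ω) (B : ℝ≥0 → Ω → ℝ) : Filtration ℝ≥0 mΩ where
  seq s := ⨅ u, ⨅ (_ : s < u), comp P B u
  mono' := by
    intro s t hst
    refine le_iInf₂ fun u hu => ?_
    exact iInf₂_le u (hst.trans_lt hu)
  le' := by
    intro s
    exact (iInf₂_le (s + 1) (lt_add_one s)).trans inf_le_right

lemma indep_comp {P : Measure Ω} [IsProbabilityMeasure P] {B : ℝ≥0 → Ω → ℝ}
    (hB : IsPreBrownianReal B P) (u : ℝ≥0) : Indep (comp P B u) (aft B u) P := by
  have h1 : Indep (raw B u) (aft B u) P := (hB.indepFun_shift u).symm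
  refine (Indep_iff (comp P B u) (aft B u) P).2 fun t1 t2 ht1 ht2 => ?_
  obtain ⟨⟨t, ht, hte⟩, _⟩ := ht1
  have hte' : t1 =ᵐ[P] t := hte
  have h2 := (Indep_iff (raw B u) (aft B u) P).1 h1 t t2 ht ht2
  have e1 : P (t1 ∩ t2) = P (t ∩ t2) := measure_congr (hte'.inter (ae_eq_refl t2))
  have e2 : P t1 = P t := measure_congr hte'
  rw [e1, e2]
  exact h2

end FFilt

open FFilt in
theorem stmtFilt : StmtFilt := by
  intro Ω mΩ P hP B hB hc hm
  have hle : ∀ s, (filt P B s : MeasurableSpace Ω) = ⨅ u, ⨅ (_ : s < u), comp P B u := fun _ => rfl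
  refine ⟨filt P B, ⟨?_, ?_⟩, ?_, ?_⟩
  · intro A hA hA0
    have h1 : ∀ u, MeasurableSet[comp P B u] A := by
      intro u
      refine ⟨⟨∅, @MeasurableSet.empty _ (raw B u), ?_⟩, hA⟩
      exact ae_eq_empty.2 hA0
    rw [hle]
    exact MeasurableSpace.measurableSet_iInf.2 fun u => MeasurableSpace.measurableSet_iInf.2
      fun _ => h1 u
  · intro t
    refine le_iInf₂ fun u hu => ?_
    obtain ⟨s, hs1, hs2⟩ := exists_between hu
    exact (iInf₂_le s hs1).trans (iInf₂_le u hs2)
  · intro t
    have h1 : ∀ u, t < u → Measurable[comp P B u] (B t) := fun u hu =>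
      (measurable_raw B hu.le).mono (raw_le_comp hm u) le_rfl
    rw [hle]
    intro S hS
    exact MeasurableSpace.measurableSet_iInf.2 fun u => MeasurableSpace.measurableSet_iInf.2
      fun hu => h1 u hu hS
  · intro s
    let v : ℕ → ℝ≥0 := fun n => s + 1 / ((n : ℝ≥0) + 1)
    have hv : ∀ n, s < v n := fun n => lt_add_of_pos_right s (by positivity)
    have hva : Antitone v := by
      intro n m hnm
      refine add_le_add le_rfl ?_
      refine one_div_le_one_div_of_le (by positivity) ?_
      exact add_le_add (Nat.cast_le.2 hnm) le_rfl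
    have hvt : Tendsto v atTop (𝓝 s) := by
      have h1 : Tendsto (fun n : ℕ => 1 / ((n : ℝ≥0) + 1)) atTop (𝓝 0) :=
        tendsto_one_div_add_atTop_nhds_zero_nat
      simpa [v] using h1.const_add s
    have hmono : Monotone (fun n => aft B (v n)) := by
      intro n m hnm
      -- write the increments after `v n` by those after `v m`
      have h1 : Measurable[aft B (v m)] (fun ω (t : ℝ≥0) => B (v m + t) ω - B (v m) ω) :=
        comap_measurable _
      have h2 : ∀ t : ℝ≥0, Measurable[aft B (v m)] (fun ω => B (v m + t) ω - B (v m) ω) :=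
        fun t => (measurable_pi_apply t).comp h1
      have h3 : Measurable[aft B (v m)] (fun ω (t : ℝ≥0) => B (v n + t) ω - B (v n) ω) := by
        refine @measurable_pi_lambda _ _ _ (aft B (v m)) _ _ fun t => ?_
        have h4 := (h2 (v n - v m + t)).sub (h2 (v n - v m))
        have e1 : v m + (v n - v m) = v n := add_tsub_cancel_of_le (hva hnm)
        have e2 : (fun ω => B (v n + t) ω - B (v n) ω) =
            (fun ω => B (v m + (v n - v m + t)) ω - B (v m) ω) -
              (fun ω => B (v m + (v n - v m)) ω - B (v m) ω) := by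
          funext ω
          change _ = (B (v m + (v n - v m + t)) ω - B (v m) ω) -
              (B (v m + (v n - v m)) ω - B (v m) ω)
          rw [← add_assoc, e1]
          ring
        rw [e2]
        exact h4
      exact h3.comap_le
    have hind : ∀ n, Indep (aft B (v n)) (filt P B s) P := by
      intro n
      have h1 := (indep_comp (P := P) hB.toIsPreBrownianReal (v n)).symm
      refine indep_of_indep_of_le_right h1 ?_
      rw [hle]
      exact iInf₂_le (v n) (hv n)
    have h2 := indep_iSup_of_monotone hind (fun n => aft_le hm (v n)) ((filt P B).le s) hmono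
    refine indep_of_indep_of_le_left h2 ?_ |>.symm
    have h5 : ∀ t : ℝ≥0, Measurable[⨆ n, aft B (v n)] (fun ω => B (s + t) ω - B s ω) := by
      intro t
      have h6 : ∀ n, Measurable[⨆ n, aft B (v n)] (fun ω => B (v n + t) ω - B (v n) ω) := by
        intro n
        have h7 : Measurable[aft B (v n)] (fun ω (t : ℝ≥0) => B (v n + t) ω - B (v n) ω) :=
          comap_measurable _
        exact ((measurable_pi_apply t).comp h7).mono (le_iSup (fun n => aft B (v n)) n) le_rfl
      refine @measurable_of_tendsto_metrizable _ _ (⨆ n, aft B (v n)) _ _ _ _ _ _ h6 ?_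
      refine tendsto_pi_nhds.2 fun ω => ?_
      have h8 := (hc ω).tendsto (s + t)
      have h9 := (hc ω).tendsto s
      exact (h8.comp (hvt.add_const t)).sub (h9.comp hvt)
    exact (@measurable_pi_lambda _ _ _ (⨆ n, aft B (v n)) _ _ h5).comap_le

end Pool.Agent.R966.FBM
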