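import Pool.Agent.R966.FBM.Stmts
import Pool.Agent.R970.FB.BM

set_option autoImplicit false

open scoped ENNReal NNReal Topology
open MeasureTheory ProbabilityTheory Set Filter

namespace Pool.Agent.R966.FBM

theorem stmtWiener : StmtWiener := by
  obtain ⟨Ω, mΩ, P, B, _, hP, hBm, _, hBc, _, _, _, hB, _, _⟩ := Pool.Agent.R970.FB.exists_two
  let f : Ω → C(ℝ≥0, ℝ) := fun ω => ⟨fun t => B t ω, hBc ω⟩
  have hf : Measurable f := Pool.Agent.R967.FB.measurable_path fun t => hBm t
  refine ⟨P.map f, ⟨⟨fun I => ⟨?_, ?_⟩⟩, Eventually.of_forall fun w => w.continuous⟩⟩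
  · exact (measurable_pi_lambda _ fun t : I =>
      Pool.Agent.R967.FB.measurable_eval (t : ℝ≥0)).aemeasurable
  · have hm : Measurable (fun (w : C(ℝ≥0, ℝ)) => I.restrict (fun t => w t)) :=
      measurable_pi_lambda _ fun t : I => Pool.Agent.R967.FB.measurable_eval (t : ℝ≥0)
    rw [Measure.map_map hm hf]
    exact (hB.hasLaw I).map_eq

end Pool.Agent.R966.FBM
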