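import Pool.Agent.R966.FBM.Det
import Pool.Agent.R966.FBM.F
import Pool.Agent.R966.FBM.W
import Pool.Agent.R966.FBM.Core

set_option autoImplicit false

open scoped ENNReal NNReal Topology
open MeasureTheory ProbabilityTheory Set Filter
open Pool.Agent.R967.FB

namespace Pool.Agent.R966.FBM

/-! ### the forward rule -/

lemma rule_lo (d : ℝ≥0) (b : C(ℝ≥0, ℝ)) : d ≤ rule d b := le_self_add

lemma rule_hi (d : ℝ≥0) (b : C(ℝ≥0, ℝ)) : rule d b ≤ 2 * d := by
  unfold rule
  rw [two_mul]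
  gcongr
  exact age_le _ _ _

lemma rule_sub (d : ℝ≥0) (b : C(ℝ≥0, ℝ)) : (rule d b : ℝ) = d + age d (-b) 0 := by
  unfold rule
  push_cast
  rfl

lemma rule_hit {d : ℝ≥0} {b : C(ℝ≥0, ℝ)} (h : rule d b < 2 * d) :
    b (age d (-b) 0) ≤ b (rule d b) := by
  have h1 : age d (-b) 0 < d := by
    unfold rule at h
    rw [two_mul] at h
    exact lt_of_add_lt_add_left h
  have h2 := age_prop h1
  simp only [ContinuousMap.neg_apply, zero_add] at h2
  have e : rule d b = age d (-b) 0 + d := by unfold rule; ring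
  rw [e]
  linarith

lemma rule_nohit {d : ℝ≥0} {b : C(ℝ≥0, ℝ)} {a : ℝ≥0} (h : a + d < rule d b) :
    b (a + d) < b a := by
  have h1 : a < age d (-b) 0 := by
    unfold rule at h
    rw [add_comm] at h
    exact lt_of_add_lt_add_left h
  have h2 := lt_of_lt_age h1
  simp only [ContinuousMap.neg_apply, zero_add] at h2
  linarith

lemma measurable_neg_path : Measurable (fun w : C(ℝ≥0, ℝ) => -w) :=
  measurable_path fun t => (measurable_eval t).neg

lemma measurable_rule (d : ℝ≥0) : Measurable (rule d) := by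
  have h : Measurable (fun w : C(ℝ≥0, ℝ) => age d (-w) 0) :=
    (measurable_age_fix d 0).comp measurable_neg_path
  exact h.const_add d

/-- the rule looks only at the path up to the stopping time -/
lemma rule_le_iff {d t : ℝ≥0} (h1 : d ≤ t) (h2 : t < 2 * d) (b : C(ℝ≥0, ℝ)) :
    rule d b ≤ t ↔ rule d (stopc t b) ≤ t := by
  have hc : t - d < d := by
    rw [tsub_lt_iff_left h1, ← two_mul]
    exact h2
  have key : ∀ b' : C(ℝ≥0, ℝ), rule d b' ≤ t ↔ ¬ (t - d < age d (-b') 0) := by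
    intro b'
    rw [not_lt]
    unfold rule
    constructor
    · intro h
      exact le_tsub_of_add_le_left h
    · intro h
      calc d + age d (-b') 0 ≤ d + (t - d) := by gcongr
        _ = t := add_tsub_cancel_of_le h1
  rw [key, key, lt_age_iff hc, lt_age_iff hc]
  have : ∀ a ∈ Icc 0 (t - d), ((-b) (0 + a) < (-b) (0 + a + d) ↔
      (-(stopc t b)) (0 + a) < (-(stopc t b)) (0 + a + d)) := by
    intro a ha
    have h3 : a + d ≤ t := by
      calc a + d ≤ (t - d) + d := by gcongr; exact ha.2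
        _ = t := tsub_add_cancel_of_le h1
    have h4 : a ≤ t := le_self_add.trans h3
    simp only [ContinuousMap.neg_apply, zero_add, stopc_apply, min_eq_left h3, min_eq_left h4]
  constructor
  · intro h hh
    exact h fun a ha => (this a ha).2 (hh a ha)
  · intro h hh
    exact h fun a ha => (this a ha).1 (hh a ha)

/-! ### the lengths of the pieces -/

open Classical in
/-- the length of the piece number `k` as a function of its Brownian path -/
noncomputable def TT (k : ℤ) (w : C(ℝ≥0, ℝ)) : ℝ≥0 :=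
  if h : ∃ j : ℕ, k = -((j : ℤ) + 1) ^ 2 then rule (dd h.choose) w else 1

lemma spec_inj {i j : ℕ} (h : -((j : ℤ) + 1) ^ 2 = -((i : ℤ) + 1) ^ 2) : i = j := by
  have h1 : ((i:ℤ) + 1) ^ 2 = ((j:ℤ) + 1) ^ 2 := by linarith
  rcases lt_trichotomy i j with h2 | h2 | h2
  · have : (i:ℤ) + 1 ≤ j := by exact_mod_cast h2
    nlinarith
  · exact h2
  · have : (j:ℤ) + 1 ≤ i := by exact_mod_cast h2
    nlinarith

lemma TT_special (j : ℕ) (w : C(ℝ≥0, ℝ)) : TT (-((j : ℤ) + 1) ^ 2) w = rule (dd j) w := by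
  have h : ∃ i : ℕ, -((j : ℤ) + 1) ^ 2 = -((i : ℤ) + 1) ^ 2 := ⟨j, rfl⟩
  unfold TT
  rw [dif_pos h]
  have := spec_inj h.choose_spec
  rw [this]

lemma TT_plain {k : ℤ} (h : ∀ j : ℕ, k ≠ -((j : ℤ) + 1) ^ 2) (w : C(ℝ≥0, ℝ)) : TT k w = 1 := by
  unfold TT
  rw [dif_neg]
  push Not
  exact h

lemma measurable_TT (k : ℤ) : Measurable (TT k) := by
  by_cases h : ∃ j : ℕ, k = -((j : ℤ) + 1) ^ 2
  · obtain ⟨j, rfl⟩ := h
    have : TT (-((j : ℤ) + 1) ^ 2) = rule (dd j) := funext fun w => TT_special j w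
    rw [this]
    exact measurable_rule _
  · push Not at h
    have : TT k = fun _ => 1 := funext fun w => TT_plain h w
    rw [this]
    exact measurable_const

lemma TT_le_one (k : ℤ) (w : C(ℝ≥0, ℝ)) : TT k w ≤ 1 := by
  by_cases h : ∃ j : ℕ, k = -((j : ℤ) + 1) ^ 2
  · obtain ⟨j, rfl⟩ := h
    rw [TT_special]
    refine (rule_hi _ _).trans ?_
    calc 2 * dd j ≤ 2 * (1 / 2) := by gcongr; exact dd_le j
      _ = 1 := by norm_num
  · push Not at h
    rw [TT_plain h]

/-! ### positions -/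

lemma SS_right {T : ℤ → ℝ≥0} (h : ∀ k : ℤ, (∀ j : ℕ, k ≠ -((j : ℤ) + 1) ^ 2) → T k = 1) (n : ℕ) :
    SS T n = n := by
  induction n with
  | zero => simpa using G.SS_zero T
  | succ n ih =>
    have e : ((n + 1 : ℕ) : ℤ) = (n:ℤ) + 1 := by push_cast; ring
    rw [e, G.SS_succ, ih, h]
    · push_cast; ring
    · intro j hj
      have h1 : (0:ℤ) ≤ n := Int.natCast_nonneg n
      have h2 : 0 < ((j:ℤ) + 1) ^ 2 := by positivity
      linarith

lemma SS_left {T : ℤ → ℝ≥0} (h : ∀ k : ℤ, (∀ j : ℕ, k ≠ -((j : ℤ) + 1) ^ 2) → T k = 1) (n : ℕ) :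
    SS T (-(2 * n)) ≤ -(n : ℝ) := by
  induction n with
  | zero => simpa using (G.SS_zero T).le
  | succ n ih =>
    have e1 : (-(2 * (n : ℤ))) = (-(2 * (n:ℤ)) - 1) + 1 := by ring
    have e2 : (-(2 * (n : ℤ)) - 1) = (-(2 * ((n + 1 : ℕ) : ℤ))) + 1 := by push_cast; ring
    rw [e1, G.SS_succ, e2, G.SS_succ, ← e2] at ih
    have h1 : (1:ℝ) ≤ (T (-(2 * ((n + 1 : ℕ) : ℤ))) : ℝ) + T (-(2 * (n:ℤ)) - 1) := by
      by_cases hs : ∃ j : ℕ, (-(2 * (n:ℤ)) - 1) = -((j : ℤ) + 1) ^ 2
      · obtain ⟨j, hj⟩ := hs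
        have : T (-(2 * ((n + 1 : ℕ) : ℤ))) = 1 := by
          apply h
          intro i hi
          push_cast at hi
          have h2 : ((i:ℤ) + 1) ^ 2 = ((j:ℤ) + 1) ^ 2 + 1 := by linarith
          rcases le_or_gt i j with h3 | h3
          · have : (i:ℤ) ≤ j := by exact_mod_cast h3
            nlinarith
          · have : (j:ℤ) + 1 ≤ i := by exact_mod_cast h3
            nlinarith
        rw [this]
        simp
      · push Not at hs
        rw [h _ hs]
        simp
    push_cast at ih h1 ⊢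
    linarith

/-! ### the process -/

/-- the probability space -/
abbrev Om : Type := ℤ → C(ℝ≥0, ℝ)

/-- the Brownian path number `k` -/
def bb (k : ℤ) (ω : Om) : C(ℝ≥0, ℝ) := shift 0 (ω k)

lemma bb_zero (k : ℤ) (ω : Om) : bb k ω 0 = 0 := by simp [bb]

lemma measurable_bb (k : ℤ) : Measurable (bb k) :=
  (measurable_shift 0).comp (measurable_pi_apply k)

/-- the lengths -/
noncomputable def LL (k : ℤ) (ω : Om) : ℝ≥0 := TT k (bb k ω)

lemma measurable_LL (k : ℤ) : Measurable (LL k) := (measurable_TT k).comp (measurable_bb k)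

lemma LL_plain (ω : Om) (k : ℤ) (h : ∀ j : ℕ, k ≠ -((j : ℤ) + 1) ^ 2) : LL k ω = 1 :=
  TT_plain h _

/-- the process -/
noncomputable def XX (t : ℝ) (ω : Om) : ℝ := glue (fun k => bb k ω) (fun k => LL k ω) t

lemma XX_glue (ω : Om) : Continuous (fun t => XX t ω) ∧
    ∀ (k : ℤ) (t : ℝ≥0), t ≤ LL k ω →
      XX (SS (fun k => LL k ω) k + t) ω - XX (SS (fun k => LL k ω) k) ω = bb k ω t := by
  refine stmtGlue (fun k => bb k ω) (fun k => LL k ω) (fun k => bb_zero k ω) ?_ ?_
  · intro n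
    exact (SS_right (fun k h => LL_plain ω k h) n).ge
  · intro n
    exact SS_left (fun k h => LL_plain ω k h) n

lemma XX_cont (ω : Om) : Continuous (fun t => XX t ω) := (XX_glue ω).1

lemma measurable_XX (t : ℝ) : Measurable (XX t) :=
  stmtGlueMeas Om inferInstance bb LL measurable_bb measurable_LL t

lemma lens (ω : Om) : Lens (fun t => XX t ω) (fun k => LL k ω) := by
  refine ⟨LL_plain ω, fun j => ?_, fun j => ?_, fun j h => ?_, fun j t h1 h2 => ?_⟩
  · simp only [LL]
    rw [TT_special]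
    exact rule_lo _ _
  · simp only [LL]
    rw [TT_special]
    exact rule_hi _ _
  · set k : ℤ := -((j : ℤ) + 1) ^ 2 with hk
    have hL : LL k ω = rule (dd j) (bb k ω) := by simp only [LL]; rw [hk, TT_special]
    rw [hL] at h
    have h3 := rule_hit h
    have i1 := (XX_glue ω).2 k (LL k ω) le_rfl
    have hle : age (dd j) (-bb k ω) 0 ≤ LL k ω := by
      rw [hL]
      exact le_add_self
    have i2 := (XX_glue ω).2 k (age (dd j) (-bb k ω) 0) hle
    have e : SS (fun k => LL k ω) k + (LL k ω : ℝ) - dd j =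
        SS (fun k => LL k ω) k + (age (dd j) (-bb k ω) 0 : ℝ) := by
      rw [hL, rule_sub]; ring
    rw [e]
    rw [← hL] at h3
    linarith
  · set k : ℤ := -((j : ℤ) + 1) ^ 2 with hk
    have hL : LL k ω = rule (dd j) (bb k ω) := by simp only [LL]; rw [hk, TT_special]
    have h0 : 0 ≤ t - dd j := by linarith
    set a : ℝ≥0 := ⟨t - dd j, h0⟩ with ha
    have har : (a : ℝ) = t - dd j := rfl
    have h3 : a + dd j < LL k ω := by
      rw [← NNReal.coe_lt_coe]
      push_cast
      rw [har]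
      linarith
    have h4 := rule_nohit (hL ▸ h3)
    have i1 := (XX_glue ω).2 k (a + dd j) h3.le
    have i2 := (XX_glue ω).2 k a (le_self_add.trans h3.le)
    push_cast at i1
    rw [har] at i1 i2
    have e1 : SS (fun k => LL k ω) k + (t - dd j + dd j) = SS (fun k => LL k ω) k + t := by ring
    have e2 : SS (fun k => LL k ω) k + (t - dd j) = SS (fun k => LL k ω) k + t - dd j := by ring
    rw [e1] at i1
    rw [e2] at i2
    linarith

end Pool.Agent.R966.FBM
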