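import Pool.Agent.R966.FBM.Constr

set_option autoImplicit false

open scoped ENNReal NNReal Topology
open MeasureTheory ProbabilityTheory Set Filter
open Pool.Agent.R967.FB

namespace Pool.Agent.R966.FBM

variable {W : Measure C(ℝ≥0, ℝ)}

/-- the probability measure -/
noncomputable def PP (W : Measure C(ℝ≥0, ℝ)) : Measure Om := Measure.infinitePi (fun _ : ℤ => W)

lemma prob_PP (hW : IsWiener W) : IsProbabilityMeasure (PP W) := by
  have hWp : IsProbabilityMeasure W := hW.isGaussianProcess.isProbabilityMeasure
  unfold PP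
  infer_instance

lemma map_bb (hW : IsWiener W) (k : ℤ) : (PP W).map (bb k) = W := by
  have hWp : IsProbabilityMeasure W := hW.isGaussianProcess.isProbabilityMeasure
  have h1 : (PP W).map (fun ω : Om => ω k) = W := Measure.infinitePi_map_eval (fun _ : ℤ => W) k
  have h2 : bb k = shift 0 ∘ (fun ω : Om => ω k) := rfl
  rw [h2, ← Measure.map_map (measurable_shift 0) (measurable_pi_apply k), h1, map_shift hW 0]

lemma brownian_of_map {Ω : Type*} [MeasurableSpace Ω] {P : Measure Ω} {f : Ω → C(ℝ≥0, ℝ)}
    (hf : Measurable f) (hW : IsWiener W) (h : P.map f = W) :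
    IsBrownianReal (fun (t : ℝ≥0) ω => f ω t) P := by
  refine ⟨⟨fun I => ⟨?_, ?_⟩⟩, Eventually.of_forall fun ω => (f ω).continuous⟩
  · exact (measurable_pi_lambda _ fun t : I => (measurable_eval (t : ℝ≥0)).comp hf).aemeasurable
  · have hm : Measurable (fun (w : C(ℝ≥0, ℝ)) => I.restrict (fun t => w t)) :=
      measurable_pi_lambda _ fun t : I => measurable_eval (t : ℝ≥0)
    have h1 := (hW.hasLaw I).map_eq
    rw [← h, Measure.map_map hm hf] at h1
    exact h1

lemma brownian_bb (hW : IsWiener W) (k : ℤ) :
    IsBrownianReal (fun (t : ℝ≥0) ω => bb k ω t) (PP W) :=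
  brownian_of_map (measurable_bb k) hW (map_bb hW k)

/-- the stopped piece as a function of the path -/
noncomputable def piece (k : ℤ) (w : C(ℝ≥0, ℝ)) : ℝ≥0 × (ℝ≥0 → ℝ) :=
  (TT k (shift 0 w), fun t : ℝ≥0 => shift 0 w (min t (TT k (shift 0 w))))

lemma measurable_piece (k : ℤ) : Measurable (piece k) := by
  have h1 : Measurable (fun w : C(ℝ≥0, ℝ) => TT k (shift 0 w)) :=
    (measurable_TT k).comp (measurable_shift 0)
  refine h1.prodMk (measurable_pi_lambda _ fun t => ?_)
  exact G.measurable_app.comp ((measurable_const.min h1).prodMk (measurable_shift 0))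

lemma tendsto_LL_right (ω : Om) :
    Tendsto (fun n : ℕ => ∑ k ∈ Finset.range n, LL ((k : ℤ) + 1) ω) atTop atTop := by
  have h : ∀ n : ℕ, ∑ k ∈ Finset.range n, LL ((k : ℤ) + 1) ω = n := by
    intro n
    have : ∀ k ∈ Finset.range n, LL ((k : ℤ) + 1) ω = 1 := by
      intro k _
      apply LL_plain
      intro j hj
      have h1 : (0:ℤ) ≤ k := Int.natCast_nonneg k
      have h2 : 0 < ((j:ℤ) + 1) ^ 2 := by positivity
      linarith
    rw [Finset.sum_congr rfl this]
    simp
  simp_rw [h]
  exact tendsto_natCast_atTop_atTop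

lemma sum_left_eq (ω : Om) (n : ℕ) :
    ((∑ k ∈ Finset.range n, LL (-((k : ℤ) + 1)) ω : ℝ≥0) : ℝ) =
      -SS (fun k => LL k ω) (-(n : ℤ)) := by
  induction n with
  | zero => simpa using (G.SS_zero (fun k => LL k ω))
  | succ n ih =>
    rw [Finset.sum_range_succ]
    have e : -(n:ℤ) = -((n + 1 : ℕ) : ℤ) + 1 := by push_cast; ring
    rw [e, G.SS_succ] at ih
    have e2 : -((n:ℤ) + 1) = -((n + 1 : ℕ) : ℤ) := by push_cast; ring
    push_cast at ih ⊢
    rw [ih]
    ring

lemma tendsto_LL_left (ω : Om) :
    Tendsto (fun n : ℕ => ∑ k ∈ Finset.range n, LL (-((k : ℤ) + 1)) ω) atTop atTop := by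
  have hmono : Monotone (fun n : ℕ => ∑ k ∈ Finset.range n, LL (-((k : ℤ) + 1)) ω) := by
    intro a b hab
    exact Finset.sum_le_sum_of_subset (Finset.range_mono hab)
  refine tendsto_atTop_atTop_of_monotone hmono fun b => ?_
  obtain ⟨m, hm⟩ := exists_nat_ge b
  refine ⟨2 * m, hm.trans ?_⟩
  have h1 := sum_left_eq ω (2 * m)
  have h2 := SS_left (T := fun k => LL k ω) (fun k h => LL_plain ω k h) m
  have e : (-(2 * (m:ℤ))) = -((2 * m : ℕ) : ℤ) := by push_cast; ring
  rw [e] at h2
  rw [← NNReal.coe_le_coe, h1]
  push_cast at h2 ⊢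
  linarith

/-- the process is decomposable -/
theorem decomposable (hW : IsWiener W) : IsDecomposable XX (PP W) LL := by
  have hWp : IsProbabilityMeasure W := hW.isGaussianProcess.isProbabilityMeasure
  have hP := prob_PP hW
  have hF := fun k : ℤ => stmtFilt Om inferInstance (PP W) hP (fun (t : ℝ≥0) ω => bb k ω t)
    (brownian_bb hW k) (fun ω => (bb k ω).continuous)
    (fun t => (measurable_eval t).comp (measurable_bb k))
  choose F hn ha hi using hF
  refine ⟨fun _ => 0, F, fun k t ω => bb k ω t, fun k ω => SS (fun k => LL k ω) k,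
    measurable_const, ?_, fun ω => G.SS_zero _, fun k ω => G.SS_succ _ k, fun ω => ⟨XX_cont ω, ?_⟩⟩
  · refine ⟨hn, brownian_bb hW, fun k ω => (bb k ω).continuous, ha, hi, fun k t => ?_, ?_,
      Eventually.of_forall fun ω => tendsto_LL_right ω,
      Eventually.of_forall fun ω => tendsto_LL_left ω⟩
    · by_cases h : ∃ j : ℕ, k = -((j : ℤ) + 1) ^ 2
      · obtain ⟨j, hj⟩ := h
        have hLL : ∀ ω, LL k ω = rule (dd j) (bb k ω) := by
          intro ω
          simp only [LL]
          rw [hj, TT_special]
        simp_rw [hLL]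
        rcases lt_or_ge t (dd j) with h1 | h1
        · have : {ω : Om | rule (dd j) (bb k ω) ≤ t} = ∅ := by
            ext ω
            simp only [mem_ofPred_eq, mem_empty_iff_false, iff_false, not_le]
            exact h1.trans_le (rule_lo _ _)
          rw [this]
          exact @MeasurableSet.empty _ (F k t)
        · rcases lt_or_ge t (2 * dd j) with h2 | h2
          · have hset : {ω : Om | rule (dd j) (bb k ω) ≤ t} =
                (fun ω => stopc t (bb k ω)) ⁻¹' {w | rule (dd j) w ≤ t} := by
              ext ω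
              exact rule_le_iff h1 h2 _
            rw [hset]
            have hm : @Measurable Om C(ℝ≥0, ℝ) (F k t) _ (fun ω => stopc t (bb k ω)) := by
              refine @measurable_path Om (F k t) _ fun s => ?_
              have h3 := ha k (min s t)
              exact h3.mono ((F k).mono (min_le_right s t)) le_rfl
            exact hm (measurableSet_le (measurable_rule _) measurable_const)
          · have : {ω : Om | rule (dd j) (bb k ω) ≤ t} = univ := by
              ext ω
              simp only [mem_ofPred_eq, mem_univ, iff_true]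
              exact (rule_hi _ _).trans h2
            rw [this]
            exact @MeasurableSet.univ _ (F k t)
      · push Not at h
        have hLL : ∀ ω, LL k ω = 1 := fun ω => LL_plain ω k h
        simp_rw [hLL]
        exact @MeasurableSet.const _ (F k t) _
    · exact iIndepFun_infinitePi (P := fun _ : ℤ => W) (X := piece) measurable_piece
  · intro k t ht
    have := (XX_glue ω).2 k t ht.le
    simp only [zero_add]
    exact this

end Pool.Agent.R966.FBM
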