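import Pool.Agent.R967.FB.Wiener

set_option autoImplicit false

open scoped ENNReal NNReal Topology
open MeasureTheory ProbabilityTheory Set Filter
open Pool.Agent.R967.FB

namespace Pool.Agent.R966.FBM

/-! ## Definitions of the statement -/

section Statement

variable {Ω : Type*}

/-- The process `X` seen forward from the random time `S`. -/
def fwd (X : ℝ → Ω → ℝ) (S : Ω → ℝ) (t : ℝ≥0) (ω : Ω) : ℝ := X (S ω + t) ω - X (S ω) ω

/-- Forward Brownian motion: there are random times `S 0, S 1, …` tending to `-∞` almost surely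
such that `X`, seen forward from any of them, is a Brownian motion. -/
def IsFBM [MeasurableSpace Ω] (X : ℝ → Ω → ℝ) (P : Measure Ω) : Prop :=
  ∃ S : ℕ → Ω → ℝ, (∀ n, Measurable (S n)) ∧
    (∀ᵐ ω ∂P, Tendsto (fun n => S n ω) atTop atBot) ∧
    ∀ n, IsBrownianReal (fwd X (S n)) P

/-- Backward Brownian motion: the time reversal is a forward Brownian motion. -/
def IsBBM [MeasurableSpace Ω] (X : ℝ → Ω → ℝ) (P : Measure Ω) : Prop :=
  IsFBM (fun t => X (-t)) P

/-- A normal filtration: right-continuous, and it contains the null sets. -/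
structure IsNormal [mΩ : MeasurableSpace Ω] (P : Measure Ω) (F : Filtration ℝ≥0 mΩ) : Prop where
  null : ∀ A : Set Ω, MeasurableSet A → P A = 0 → MeasurableSet[F 0] A
  right : ∀ t : ℝ≥0, (⨅ s > t, F s) ≤ F t

/-- The pieces of a decomposable process: for every `k`, `B k` is a Brownian motion
with respect to the normal filtration `F k`, `T k` is a finite stopping time of `F k`, and the
pairs `(T k, B k stopped at T k)` are independent; the sums of the `T k` over `k ≥ 1` and over
`k ≤ -1` are infinite. -/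
structure IsPieces [mΩ : MeasurableSpace Ω] (P : Measure Ω)
    (F : ℤ → Filtration ℝ≥0 mΩ) (B : ℤ → ℝ≥0 → Ω → ℝ) (T : ℤ → Ω → ℝ≥0) : Prop where
  normal : ∀ k, IsNormal P (F k)
  bm : ∀ k, IsBrownianReal (B k) P
  cont : ∀ k ω, Continuous (B k · ω)
  adapted : ∀ k t, Measurable[F k t] (B k t)
  indep_incr : ∀ k (s : ℝ≥0), Indep (F k s)
    (MeasurableSpace.comap (fun ω (t : ℝ≥0) => B k (s + t) ω - B k s ω) inferInstance) P
  stop : ∀ k (t : ℝ≥0), MeasurableSet[F k t] {ω | T k ω ≤ t}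
  indep : iIndepFun (fun k ω => (T k ω, fun t : ℝ≥0 => B k (min t (T k ω)) ω)) P
  sum_right : ∀ᵐ ω ∂P, Tendsto (fun n : ℕ => ∑ k ∈ Finset.range n, T (k + 1) ω) atTop atTop
  sum_left : ∀ᵐ ω ∂P, Tendsto (fun n : ℕ => ∑ k ∈ Finset.range n, T (-(k + 1 : ℤ)) ω) atTop atTop

/-- `X` is decomposable with pieces of lengths `T k`: for some random time `U`, the process
`X (U + t) - X U` is obtained by putting the pieces one after the other, the piece number `k`
starting at time `S k`, where `S 0 = 0` and `S (k + 1) - S k = T k`. -/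
def IsDecomposable [mΩ : MeasurableSpace Ω] (X : ℝ → Ω → ℝ) (P : Measure Ω)
    (T : ℤ → Ω → ℝ≥0) : Prop :=
  ∃ (U : Ω → ℝ) (F : ℤ → Filtration ℝ≥0 mΩ) (B : ℤ → ℝ≥0 → Ω → ℝ)
    (S : ℤ → Ω → ℝ), Measurable U ∧ IsPieces P F B T ∧
    (∀ ω, S 0 ω = 0) ∧ (∀ k ω, S (k + 1) ω = S k ω + T k ω) ∧
    ∀ ω, (Continuous fun t => X t ω) ∧ ∀ (k : ℤ) (t : ℝ≥0), t < T k ω →
      X (U ω + S k ω + t) ω - X (U ω + S k ω) ω = B k t ω

end Statement

/-! ## The rules -/

/-- The first `a ∈ [0, d]` with `y (t + a + d) ≤ y (t + a)` (and `d` if there is none). -/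
noncomputable def age (d : ℝ≥0) (y : C(ℝ≥0, ℝ)) (t : ℝ≥0) : ℝ≥0 :=
  sInf {a | a ≤ d ∧ (a = d ∨ y (t + a + d) ≤ y (t + a))}

/-- The forward rule: the first `t ∈ [d, 2 d]` with `b (t - d) ≤ b t` (and `2 d` if there is
none). -/
noncomputable def rule (d : ℝ≥0) (b : C(ℝ≥0, ℝ)) : ℝ≥0 := d + age d (-b) 0

/-- The parameters of the special steps. -/
noncomputable def dd (j : ℕ) : ℝ≥0 := (1 / 2) ^ ((Nat.unpair j).1 + 1)

/-- The position (in backward time) after `j` rounds, a round being `2 j` steps of length one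
followed by a special step. -/
noncomputable def pos (y : C(ℝ≥0, ℝ)) (L : ℝ≥0) : ℕ → ℝ≥0
  | 0 => L
  | j + 1 => (pos y L j + 2 * j) + (dd j + age (dd j) y (pos y L j + 2 * j))

/-- The core statement: the pulled back window becomes short. -/
def Core : Prop := ∀ (W : Measure C(ℝ≥0, ℝ)), IsWiener W → ∀ L r : ℝ≥0, 0 < r →
  Tendsto (fun j => W {w | r + pos w 0 j ≤ pos w L j}) atTop (𝓝 0)

end Pool.Agent.R966.FBM
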