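import Pool.Agent.R966.FBM.Stmts

/-! Glueing paths (written by helper209). -/

set_option autoImplicit false

open scoped ENNReal NNReal Topology
open MeasureTheory ProbabilityTheory Set Filter
open Pool.Agent.R967.FB

namespace Pool.Agent.R966.FBM

namespace G

theorem SS_zero (T : ℤ → ℝ≥0) : SS T 0 = 0 := by simp [SS]

theorem SS_succ (T : ℤ → ℝ≥0) (k : ℤ) : SS T (k + 1) = SS T k + T k := by
  rcases lt_trichotomy k (-1) with h | h | h
  · have h1 : ¬ (0 ≤ k + 1) := by omega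
    have h2 : ¬ (0 ≤ k) := by omega
    have h3 : Finset.Ico k 0 = insert k (Finset.Ico (k + 1) 0) := by
      ext j
      simp only [Finset.mem_insert, Finset.mem_Ico]
      omega
    simp only [SS, h1, h2, if_false]
    rw [h3, Finset.sum_insert (by simp)]
    ring
  · subst h
    have h3 : Finset.Ico (-1 : ℤ) 0 = {-1} := by
      ext j
      simp only [Finset.mem_singleton, Finset.mem_Ico]
      omega
    simp [SS, h3]
  · have h1 : 0 ≤ k + 1 := by omega
    have h2 : 0 ≤ k := by omega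
    have h3 : Finset.Ico 0 (k + 1) = insert k (Finset.Ico 0 k) := by
      ext j
      simp only [Finset.mem_insert, Finset.mem_Ico]
      omega
    simp only [SS, h1, h2, if_true]
    rw [h3, Finset.sum_insert (by simp)]
    ring

theorem SS_mono (T : ℤ → ℝ≥0) : Monotone (SS T) := by
  apply monotone_int_of_le_succ
  intro k
  rw [SS_succ]
  have := (T k).2
  simp

/-- a term of the sum -/
noncomputable def term (b : ℤ → C(ℝ≥0, ℝ)) (T : ℤ → ℝ≥0) (k : ℤ) (t : ℝ) : ℝ :=
  b k (min (t - SS T k).toNNReal (T k)) - if k < 0 then b k (T k) else 0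

theorem term_cont (b : ℤ → C(ℝ≥0, ℝ)) (T : ℤ → ℝ≥0) (k : ℤ) : Continuous (term b T k) := by
  unfold term
  fun_prop

theorem min_left {T : ℤ → ℝ≥0} {k : ℤ} {t : ℝ} (h : t ≤ SS T k) :
    min (t - SS T k).toNNReal (T k) = 0 := by
  have : (t - SS T k).toNNReal = 0 := Real.toNNReal_eq_zero.2 (by linarith)
  rw [this]
  simp

theorem min_right {T : ℤ → ℝ≥0} {k : ℤ} {t : ℝ} (h : SS T (k + 1) ≤ t) :
    min (t - SS T k).toNNReal (T k) = T k := by
  apply min_eq_right
  apply NNReal.le_toNNReal_of_coe_le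
  rw [SS_succ] at h
  linarith

theorem term_right {b : ℤ → C(ℝ≥0, ℝ)} {T : ℤ → ℝ≥0} (hb : ∀ k, b k 0 = 0) {k : ℤ} {t : ℝ}
    (hk : 0 ≤ k) (h : t ≤ SS T k) : term b T k t = 0 := by
  unfold term
  rw [min_left h, hb, if_neg (by omega)]
  simp

theorem term_left {b : ℤ → C(ℝ≥0, ℝ)} {T : ℤ → ℝ≥0} {k : ℤ} {t : ℝ}
    (hk : k < 0) (h : SS T (k + 1) ≤ t) : term b T k t = 0 := by
  unfold term
  rw [min_right h, if_pos hk]
  simp

theorem NN_mono {s t : ℝ} (h : |s| ≤ |t|) : NN s ≤ NN t := by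
  unfold NN
  have := Int.ceil_mono h
  omega

theorem NN_ge (t : ℝ) : 2 ≤ NN t := by
  unfold NN
  have : 0 ≤ ⌈|t|⌉ := Int.ceil_nonneg (abs_nonneg t)
  omega

theorem glue_eq {b : ℤ → C(ℝ≥0, ℝ)} {T : ℤ → ℝ≥0} (hb : ∀ k, b k 0 = 0)
    (hr : ∀ n : ℕ, (n : ℝ) ≤ SS T n) (hl : ∀ n : ℕ, SS T (-(2 * n)) ≤ -(n : ℝ))
    (t : ℝ) (M : ℤ) (hM : NN t ≤ M) :
    glue b T t = ∑ k ∈ Finset.Ico (-M) M, term b T k t := by
  have hsub : Finset.Ico (-NN t) (NN t) ⊆ Finset.Ico (-M) M := by
    apply Finset.Ico_subset_Ico <;> omega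
  have hc : 0 ≤ ⌈|t|⌉ := Int.ceil_nonneg (abs_nonneg t)
  have hct : |t| ≤ (⌈|t|⌉ : ℝ) := Int.le_ceil _
  obtain ⟨n, hn⟩ : ∃ n : ℕ, (n : ℤ) = ⌈|t|⌉ + 1 := ⟨(⌈|t|⌉ + 1).toNat, by omega⟩
  have hn' : (n : ℝ) = (⌈|t|⌉ : ℝ) + 1 := by exact_mod_cast hn
  have hNN : NN t = 2 * (n : ℤ) := by
    unfold NN
    rw [hn]
  unfold glue
  refine Finset.sum_subset hsub ?_
  intro k _ hk2
  rw [Finset.mem_Ico, not_and_or] at hk2
  rcases hk2 with hk2 | hk2
  · apply term_left (by have := NN_ge t; omega)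
    have h1 : SS T (k + 1) ≤ SS T (-(2 * (n : ℤ))) := SS_mono T (by omega)
    have h2 := hl n
    have h3 := neg_abs_le t
    linarith
  · apply term_right hb (by have := NN_ge t; omega)
    have h1 : SS T (2 * n : ℕ) ≤ SS T k := SS_mono T (by push_cast; omega)
    have h2 := hr (2 * n)
    have h3 := le_abs_self t
    push_cast at h1 h2
    have h4 : (0 : ℝ) ≤ n := Nat.cast_nonneg n
    linarith

theorem glue_cont {b : ℤ → C(ℝ≥0, ℝ)} {T : ℤ → ℝ≥0} (hb : ∀ k, b k 0 = 0)
    (hr : ∀ n : ℕ, (n : ℝ) ≤ SS T n) (hl : ∀ n : ℕ, SS T (-(2 * n)) ≤ -(n : ℝ)) :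
    Continuous (glue b T) := by
  rw [continuous_iff_continuousAt]
  intro t₀
  set M : ℤ := NN (|t₀| + 1) with hM
  have hc : Continuous fun t => ∑ k ∈ Finset.Ico (-M) M, term b T k t :=
    continuous_finsetSum _ fun k _ => term_cont b T k
  refine hc.continuousAt.congr ?_
  filter_upwards [Metric.ball_mem_nhds t₀ one_pos] with t ht
  rw [glue_eq hb hr hl t M]
  apply NN_mono
  rw [Metric.mem_ball, Real.dist_eq] at ht
  have h1 : |t| ≤ |t₀| + |t - t₀| := by
    have := abs_add_le t₀ (t - t₀)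
    simpa using this
  rw [abs_of_nonneg (by positivity : 0 ≤ |t₀| + 1)]
  linarith

theorem glue_incr {b : ℤ → C(ℝ≥0, ℝ)} {T : ℤ → ℝ≥0} (hb : ∀ k, b k 0 = 0)
    (hr : ∀ n : ℕ, (n : ℝ) ≤ SS T n) (hl : ∀ n : ℕ, SS T (-(2 * n)) ≤ -(n : ℝ))
    (k : ℤ) (t : ℝ≥0) (ht : t ≤ T k) :
    glue b T (SS T k + t) - glue b T (SS T k) = b k t := by
  set M : ℤ := max (max (NN (SS T k + t)) (NN (SS T k))) (|k| + 1) with hM
  have h1 : NN (SS T k + t) ≤ M := (le_max_left _ _).trans (le_max_left _ _)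
  have h2 : NN (SS T k) ≤ M := (le_max_right _ _).trans (le_max_left _ _)
  have h3 : |k| + 1 ≤ M := le_max_right _ _
  have hk : k ∈ Finset.Ico (-M) M := by
    rw [Finset.mem_Ico]
    have h4 := neg_abs_le k
    have h5 := le_abs_self k
    omega
  rw [glue_eq hb hr hl _ M h1, glue_eq hb hr hl _ M h2, ← Finset.sum_sub_distrib,
    Finset.sum_eq_single_of_mem k hk]
  · unfold term
    have e1 : min (SS T k + t - SS T k).toNNReal (T k) = t := by
      rw [add_sub_cancel_left, Real.toNNReal_coe]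
      exact min_eq_left ht
    have e2 : min (SS T k - SS T k).toNNReal (T k) = 0 := by
      simp
    rw [e1, e2, hb]
    ring
  · intro j _ hj
    unfold term
    have hTk : (t : ℝ) ≤ T k := by exact_mod_cast ht
    have ht0 : (0 : ℝ) ≤ t := t.2
    rcases lt_or_gt_of_ne hj with hj | hj
    · have h4 : SS T (j + 1) ≤ SS T k := SS_mono T (by omega)
      rw [min_right (h4.trans (by linarith)), min_right h4]
      ring
    · have h4 : SS T (k + 1) ≤ SS T j := SS_mono T (by omega)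
      rw [SS_succ] at h4
      rw [min_left (by linarith), min_left (by linarith)]
      ring

theorem measurable_app : Measurable fun p : ℝ≥0 × C(ℝ≥0, ℝ) => p.2 p.1 := by
  have := measurable_uncurry_of_continuous_of_measurable
    (u := fun (t : ℝ≥0) (w : C(ℝ≥0, ℝ)) => w t) (fun w => w.continuous)
    (fun t => measurable_eval t)
  exact this

end G

open G

theorem stmtGlue : StmtGlue := fun _ _ hb hr hl =>
  ⟨glue_cont hb hr hl, fun k t ht => glue_incr hb hr hl k t ht⟩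

theorem stmtGlueMeas : StmtGlueMeas := by
  intro Ω _ b T hb hT t
  have hSS : ∀ k, Measurable fun ω => SS (fun k => T k ω) k := by
    intro k
    unfold SS
    split_ifs
    · exact Finset.measurable_fun_sum _ fun i _ => (hT i).coe_nnreal_real
    · exact (Finset.measurable_fun_sum _ fun i _ => (hT i).coe_nnreal_real).neg
  have happ : ∀ (k : ℤ) (s : Ω → ℝ≥0), Measurable s → Measurable fun ω => b k ω (s ω) :=
    fun k s hs => measurable_app.comp (hs.prodMk (hb k))
  unfold glue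
  refine Finset.measurable_fun_sum _ fun k _ => ?_
  have h1 : Measurable fun ω => b k ω (min (t - SS (fun k => T k ω) k).toNNReal (T k ω)) :=
    happ k _ (((measurable_const.sub (hSS k)).real_toNNReal).min (hT k))
  split_ifs
  · exact h1.sub (happ k _ (hT k))
  · exact h1.sub measurable_const

end Pool.Agent.R966.FBM
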