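import Pool.Agent.R966.FBM.Age
import Pool.Agent.R966.FBM.G

set_option autoImplicit false

open scoped ENNReal NNReal Topology
open MeasureTheory ProbabilityTheory Set Filter
open Pool.Agent.R967.FB

namespace Pool.Agent.R966.FBM

/-- the path seen backward from `R` -/
noncomputable def back (x : ℝ → ℝ) (hx : Continuous x) (R : ℝ) : C(ℝ≥0, ℝ) :=
  ⟨fun t => x (R - t) - x R, by fun_prop⟩

@[simp] lemma back_apply (x : ℝ → ℝ) (hx : Continuous x) (R : ℝ) (t : ℝ≥0) :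
    back x hx R t = x (R - t) - x R := rfl

section one

variable {x : ℝ → ℝ} {hx : Continuous x} {R s T : ℝ} {d : ℝ≥0}

lemma det_low (hT : T ≤ 2 * d) (h3 : ∀ t : ℝ, (d : ℝ) ≤ t → t < T → x (s + t) < x (s + t - d))
    {β : ℝ≥0} (hβ : R - β < s + T) : R - (β + (d + age d (back x hx R) β) : ℝ≥0) < s := by
  by_contra hc
  push Not at hc
  push_cast at hc
  have ha := age_le d (back x hx R) β
  have ha' : (age d (back x hx R) β : ℝ) ≤ d := by exact_mod_cast ha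
  have ha0 : (0:ℝ) ≤ age d (back x hx R) β := NNReal.coe_nonneg _
  rcases lt_or_eq_of_le ha with h | h
  · have h1 := age_prop h
    simp only [back_apply] at h1
    push_cast at h1
    set m : ℝ := (age d (back x hx R) β : ℝ) with hm
    have h4 := h3 (R - β - m - s) (by linarith) (by linarith)
    have e1 : s + (R - β - m - s) = R - (β + m) := by ring
    have e2 : R - (β + m) - d = R - (β + m + d) := by ring
    rw [e1, e2] at h4
    linarith
  · have h' : (age d (back x hx R) β : ℝ) = d := by exact_mod_cast h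
    linarith

lemma det_up2 (h2 : x (s + T - d) ≤ x (s + T))
    {β : ℝ≥0} (hβ : s + T ≤ R - β) :
    s + T - d ≤ R - (β + (d + age d (back x hx R) β) : ℝ≥0) := by
  push_cast
  by_contra hc
  push Not at hc
  have h0 : 0 ≤ R - β - (s + T) := by linarith
  set a : ℝ≥0 := ⟨R - β - (s + T), h0⟩ with ha
  have har : (a : ℝ) = R - β - (s + T) := rfl
  have h1 : a < age d (back x hx R) β := by
    rw [← NNReal.coe_lt_coe, har]
    linarith
  have h4 := lt_of_lt_age h1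
  simp only [back_apply] at h4
  push_cast at h4
  rw [har] at h4
  have e1 : R - (β + (R - β - (s + T))) = s + T := by ring
  have e2 : R - (β + (R - β - (s + T)) + d) = s + T - d := by ring
  rw [e1, e2] at h4
  linarith

lemma det_up (hT : (d:ℝ) ≤ T) (hT2 : T ≤ 2 * d) (h2 : T < 2 * d → x (s + T - d) ≤ x (s + T))
    {β : ℝ≥0} (hβ : s + T ≤ R - β) : s ≤ R - (β + (d + age d (back x hx R) β) : ℝ≥0) := by
  rcases lt_or_eq_of_le hT2 with h | h
  · have := det_up2 (hx := hx) (h2 h) hβ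
    linarith
  · have ha := age_le d (back x hx R) β
    have ha' : (age d (back x hx R) β : ℝ) ≤ d := by exact_mod_cast ha
    push_cast
    linarith

end one

/-- the properties of the lengths that are used -/
structure Lens (x : ℝ → ℝ) (T : ℤ → ℝ≥0) : Prop where
  plain : ∀ k : ℤ, (∀ j : ℕ, k ≠ -((j : ℤ) + 1) ^ 2) → T k = 1
  lo : ∀ j : ℕ, dd j ≤ T (-((j : ℤ) + 1) ^ 2)
  hi : ∀ j : ℕ, T (-((j : ℤ) + 1) ^ 2) ≤ 2 * dd j
  hit : ∀ j : ℕ, T (-((j : ℤ) + 1) ^ 2) < 2 * dd j →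
    x (SS T (-((j : ℤ) + 1) ^ 2) + T (-((j : ℤ) + 1) ^ 2) - dd j) ≤
      x (SS T (-((j : ℤ) + 1) ^ 2) + T (-((j : ℤ) + 1) ^ 2))
  nohit : ∀ j : ℕ, ∀ t : ℝ, (dd j : ℝ) ≤ t → t < T (-((j : ℤ) + 1) ^ 2) →
    x (SS T (-((j : ℤ) + 1) ^ 2) + t) < x (SS T (-((j : ℤ) + 1) ^ 2) + t - dd j)

lemma SS_gap {x : ℝ → ℝ} {T : ℤ → ℝ≥0} (h : Lens x T) (j : ℕ) (m : ℕ) (hm : m ≤ 2 * j) :
    SS T (-(j:ℤ) ^ 2 - m) = SS T (-(j:ℤ) ^ 2) - m := by
  induction m with
  | zero => simp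
  | succ m ih =>
    have ih' := ih (by omega)
    have e : (-(j:ℤ) ^ 2 - m) = (-(j:ℤ) ^ 2 - ((m + 1 : ℕ) : ℤ)) + 1 := by push_cast; ring
    rw [e, G.SS_succ] at ih'
    have hT : T (-(j:ℤ) ^ 2 - ((m + 1 : ℕ) : ℤ)) = 1 := by
      apply h.plain
      intro i hi
      have h1 : ((i:ℤ) + 1) ^ 2 = (j:ℤ) ^ 2 + (m + 1) := by push_cast at hi; linarith
      have h2 : (m:ℤ) + 1 ≤ 2 * j := by exact_mod_cast hm
      rcases le_or_gt ((i:ℤ) + 1) j with h3 | h3
      · nlinarith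
      · have h4 : (j:ℤ) + 1 ≤ i + 1 := by omega
        nlinarith
    rw [hT] at ih'
    push_cast at ih' ⊢
    linarith

/-- the window pulled back by the rules contains the starting times -/
lemma chain {x : ℝ → ℝ} {hx : Continuous x} {T : ℤ → ℝ≥0} (h : Lens x T) {R : ℝ} {L : ℝ≥0}
    (hL : R - L < 0) (hR : 0 ≤ R) (j : ℕ) :
    R - pos (back x hx R) L j < SS T (-(j:ℤ) ^ 2) ∧
      SS T (-(j:ℤ) ^ 2) ≤ R - pos (back x hx R) 0 j := by
  induction j with
  | zero =>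
    have e : SS T (-((0:ℕ):ℤ) ^ 2) = 0 := by
      have : (-((0:ℕ):ℤ) ^ 2) = 0 := by norm_num
      rw [this, G.SS_zero]
    rw [e]
    simp only [pos]
    exact ⟨hL, by simpa using hR⟩
  | succ j ih =>
    have hg := SS_gap h j (2 * j) le_rfl
    have e1 : (-(j:ℤ) ^ 2 - ((2 * j : ℕ) : ℤ)) = -((j:ℤ) + 1) ^ 2 + 1 := by push_cast; ring
    rw [e1, G.SS_succ] at hg
    have e2 : (-((j + 1 : ℕ) : ℤ) ^ 2) = -((j:ℤ) + 1) ^ 2 := by push_cast; ring
    rw [e2, pos_succ, pos_succ]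
    push_cast at hg
    constructor
    · apply det_low (T := T (-((j:ℤ) + 1) ^ 2)) (by exact_mod_cast h.hi j) (h.nohit j)
      push_cast
      linarith [ih.1]
    · apply det_up (T := T (-((j:ℤ) + 1) ^ 2)) (by exact_mod_cast h.lo j)
        (by exact_mod_cast h.hi j) (fun hlt => h.hit j (by exact_mod_cast hlt))
      push_cast
      linarith [ih.2]

/-- the pulled back window is not short if the special piece is not degenerate -/
lemma chain_len {x : ℝ → ℝ} {hx : Continuous x} {T : ℤ → ℝ≥0} (h : Lens x T) {R : ℝ} {L : ℝ≥0}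
    (hL : R - L < 0) (hR : 0 ≤ R) (j : ℕ) {r : ℝ≥0} (h1 : dd j + r ≤ T (-((j:ℤ) + 1) ^ 2))
    (h2 : T (-((j:ℤ) + 1) ^ 2) < 2 * dd j) :
    r + pos (back x hx R) 0 (j + 1) ≤ pos (back x hx R) L (j + 1) := by
  have ih := chain (hx := hx) h hL hR j
  have ih1 := chain (hx := hx) h hL hR (j + 1)
  have hg := SS_gap h j (2 * j) le_rfl
  have e1 : (-(j:ℤ) ^ 2 - ((2 * j : ℕ) : ℤ)) = -((j:ℤ) + 1) ^ 2 + 1 := by push_cast; ring
  rw [e1, G.SS_succ] at hg
  have e2 : (-((j + 1 : ℕ) : ℤ) ^ 2) = -((j:ℤ) + 1) ^ 2 := by push_cast; ring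
  rw [e2] at ih1
  push_cast at hg
  have h3 := det_up2 (hx := hx) (R := R) (s := SS T (-((j:ℤ) + 1) ^ 2))
    (T := T (-((j:ℤ) + 1) ^ 2)) (d := dd j) (h.hit j h2) (β := pos (back x hx R) 0 j + 2 * j)
    (by push_cast; linarith [ih.2])
  rw [← pos_succ] at h3
  have h4 : (dd j : ℝ) + r ≤ T (-((j:ℤ) + 1) ^ 2) := by exact_mod_cast h1
  rw [← NNReal.coe_le_coe]
  push_cast
  linarith [ih1.1]

end Pool.Agent.R966.FBM
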