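import Pool.Agent.R966.FBM.Path

set_option autoImplicit false

open scoped ENNReal NNReal Topology
open MeasureTheory ProbabilityTheory Set Filter
open Pool.Agent.R967.FB

namespace Pool.Agent.R966.FBM

variable {W : Measure C(ℝ≥0, ℝ)}

lemma measurable_age_fix (d t : ℝ≥0) : Measurable (fun w : C(ℝ≥0, ℝ) => age d w t) :=
  (measurable_age d).comp (measurable_id.prodMk measurable_const)

/-- the law of the age does not depend on the time -/
lemma integral_age (hW : IsWiener W) (d t : ℝ≥0) (g : ℝ≥0 → ℝ) (hg : Measurable g) :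
    ∫ w, g (age d w t) ∂W = ∫ w, g (age d w 0) ∂W := by
  have h1 : (fun w : C(ℝ≥0, ℝ) => g (age d w t)) = fun w => g (age d (shift t w) 0) := by
    funext w
    have := age_shift d w t 0
    rw [add_zero] at this
    rw [this]
  rw [h1]
  conv_rhs => rw [← map_shift hW t]
  rw [integral_map (measurable_shift t).aemeasurable]
  exact ((hg.comp (measurable_age_fix d 0))).aestronglyMeasurable

lemma abs_age_le (d : ℝ≥0) (w : C(ℝ≥0, ℝ)) (t : ℝ≥0) : |(age d w t : ℝ)| ≤ d := by
  rw [abs_of_nonneg (NNReal.coe_nonneg _)]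
  exact_mod_cast age_le d w t

lemma integrable_age (hW : IsWiener W) (d t : ℝ≥0) :
    Integrable (fun w => (age d w t : ℝ)) W := by
  have hWp : IsProbabilityMeasure W := hW.isGaussianProcess.isProbabilityMeasure
  exact Integrable.of_bound (measurable_age_fix d t).coe_nnreal_real.aestronglyMeasurable (d : ℝ)
    (Eventually.of_forall fun w => by rw [Real.norm_eq_abs]; exact abs_age_le d w t)

lemma integrable_exp_age (hW : IsWiener W) (d x y : ℝ≥0) (lam : ℝ) :
    Integrable (fun w => Real.exp (-lam * ((age d w x : ℝ) - age d w y))) W := by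
  have hWp : IsProbabilityMeasure W := hW.isGaussianProcess.isProbabilityMeasure
  refine Integrable.of_bound ?_ (Real.exp (|lam| * (d + d))) (Eventually.of_forall fun w => ?_)
  · apply Measurable.aestronglyMeasurable
    exact Real.measurable_exp.comp (measurable_const.mul
      ((measurable_age_fix d x).coe_nnreal_real.sub (measurable_age_fix d y).coe_nnreal_real))
  · rw [Real.norm_eq_abs, abs_of_pos (Real.exp_pos _)]
    apply Real.exp_le_exp.2
    refine (le_abs_self _).trans ?_
    rw [abs_mul, abs_neg]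
    gcongr
    exact (abs_sub _ _).trans (add_le_add (abs_age_le d w x) (abs_age_le d w y))

/-- the exponential moment is at least one -/
lemma one_le_exp_age (hW : IsWiener W) (d x y : ℝ≥0) (lam : ℝ) :
    1 ≤ ∫⁻ w, ENNReal.ofReal (Real.exp (-lam * ((age d w x : ℝ) - age d w y))) ∂W := by
  have hWp : IsProbabilityMeasure W := hW.isGaussianProcess.isProbabilityMeasure
  rw [← ofReal_integral_eq_lintegral_ofReal (integrable_exp_age hW d x y lam)
    (Eventually.of_forall fun w => (Real.exp_pos _).le)]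
  rw [← ENNReal.ofReal_one]
  apply ENNReal.ofReal_le_ofReal
  have h1 : ∫ w, (-lam * ((age d w x : ℝ) - age d w y) + 1) ∂W = 1 := by
    rw [integral_add, integral_const_mul, integral_sub (integrable_age hW d x)
      (integrable_age hW d y)]
    · have e1 := integral_age hW d x (fun a => (a : ℝ)) measurable_coe_nnreal_real
      have e2 := integral_age hW d y (fun a => (a : ℝ)) measurable_coe_nnreal_real
      rw [e1, e2]
      simp
    · exact ((integrable_age hW d x).sub (integrable_age hW d y)).const_mul _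
    · exact integrable_const _
  calc (1:ℝ) = ∫ w, (-lam * ((age d w x : ℝ) - age d w y) + 1) ∂W := h1.symm
    _ ≤ _ := by
      apply integral_mono
      · exact (((integrable_age hW d x).sub (integrable_age hW d y)).const_mul _).add
          (integrable_const _)
      · exact integrable_exp_age hW d x y lam
      · intro w
        exact Real.add_one_le_exp _

/-- the two factors -/
noncomputable def E1 (W : Measure C(ℝ≥0, ℝ)) (d : ℝ≥0) : ℝ≥0∞ :=
  ∫⁻ w, ENNReal.ofReal (Real.exp (-(age d w 0 : ℝ))) ∂W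

noncomputable def E2 (W : Measure C(ℝ≥0, ℝ)) (d : ℝ≥0) : ℝ≥0∞ :=
  ∫⁻ w, ENNReal.ofReal (Real.exp (age d w 0 : ℝ)) ∂W

lemma lintegral_age (hW : IsWiener W) (d t : ℝ≥0) (g : ℝ≥0 → ℝ≥0∞) (hg : Measurable g) :
    ∫⁻ w, g (age d w t) ∂W = ∫⁻ w, g (age d w 0) ∂W := by
  have h1 : (fun w : C(ℝ≥0, ℝ) => g (age d w t)) = fun w => g (age d (shift t w) 0) := by
    funext w
    have := age_shift d w t 0
    rw [add_zero] at this
    rw [this]
  rw [h1]
  conv_rhs => rw [← map_shift hW t]
  have hm : Measurable (fun w : C(ℝ≥0, ℝ) => g (age d w 0)) := hg.comp (measurable_age_fix d 0)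
  rw [lintegral_map hm (measurable_shift t)]

lemma age_stopc {d c y : ℝ≥0} (h : y + 2 * d ≤ c) (w : C(ℝ≥0, ℝ)) :
    age d (stopc c w) y = age d w y := by
  apply age_congr
  intro a ha
  have h1 : y + a + d ≤ c := by
    refine le_trans ?_ h
    rw [two_mul, ← add_assoc]
    gcongr
  rw [stopc_apply, stopc_apply, min_eq_left h1, min_eq_left (le_self_add.trans h1)]

lemma exp_age_far (hW : IsWiener W) {d x y : ℝ≥0} (h : y + 2 * d ≤ x) :
    ∫⁻ w, ENNReal.ofReal (Real.exp (-1 * ((age d w x : ℝ) - age d w y))) ∂W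
      = E2 W d * E1 W d := by
  have hWp : IsProbabilityMeasure W := hW.isGaussianProcess.isProbabilityMeasure
  have hm1 : Measurable (fun w : C(ℝ≥0, ℝ) => ENNReal.ofReal (Real.exp (-(age d w 0 : ℝ)))) :=
    (Real.measurable_exp.comp ((measurable_age_fix d 0).coe_nnreal_real.neg)).ennreal_ofReal
  have hm2 : Measurable (fun w : C(ℝ≥0, ℝ) => ENNReal.ofReal (Real.exp (age d w y : ℝ))) :=
    (Real.measurable_exp.comp ((measurable_age_fix d y).coe_nnreal_real)).ennreal_ofReal
  have e : ∀ w : C(ℝ≥0, ℝ), ENNReal.ofReal (Real.exp (-1 * ((age d w x : ℝ) - age d w y))) =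
      (fun p : C(ℝ≥0, ℝ) × C(ℝ≥0, ℝ) => ENNReal.ofReal (Real.exp (age d p.1 y : ℝ)) *
        ENNReal.ofReal (Real.exp (-(age d p.2 0 : ℝ)))) (stopc x w, shift x w) := by
    intro w
    have h1 := age_shift d w x 0
    rw [add_zero] at h1
    simp only
    rw [age_stopc h, ← h1, ← ENNReal.ofReal_mul (Real.exp_pos _).le, ← Real.exp_add]
    congr 2
    ring
  have hmm : Measurable (fun p : C(ℝ≥0, ℝ) × C(ℝ≥0, ℝ) =>
      ENNReal.ofReal (Real.exp (age d p.1 y : ℝ)) *
        ENNReal.ofReal (Real.exp (-(age d p.2 0 : ℝ)))) :=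
    (hm2.comp measurable_fst).mul (hm1.comp measurable_snd)
  rw [lintegral_congr e, lintegral_stop_shift hW x hmm]
  simp only
  have h2 : ∀ u : C(ℝ≥0, ℝ), ∫⁻ v, ENNReal.ofReal (Real.exp (age d (stopc x u) y : ℝ)) *
      ENNReal.ofReal (Real.exp (-(age d v 0 : ℝ))) ∂W =
      ENNReal.ofReal (Real.exp (age d u y : ℝ)) * E1 W d := by
    intro u
    rw [lintegral_const_mul _ hm1, age_stopc h]
    rfl
  simp_rw [h2]
  rw [lintegral_mul_const _ hm2]
  congr 1
  exact lintegral_age hW d y (fun a => ENNReal.ofReal (Real.exp (a : ℝ)))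
    (Real.measurable_exp.comp measurable_coe_nnreal_real).ennreal_ofReal

lemma map_sub (hW : IsWiener W) (d : ℝ≥0) :
    W.map (fun w : C(ℝ≥0, ℝ) => w d - w 0) = gaussianReal 0 d := by
  have h1 := (hW.hasLaw_sub d 0).map_eq
  have e : nndist (d : ℝ) ((0 : ℝ≥0) : ℝ) = d := by
    apply NNReal.eq
    rw [coe_nndist, Real.dist_eq]
    simp
  have h2 : gaussianReal 0 (nndist (d : ℝ) ((0 : ℝ≥0) : ℝ)) = gaussianReal 0 d := by rw [e]
  exact h1.trans h2

lemma measurable_sub0 (d : ℝ≥0) : Measurable (fun w : C(ℝ≥0, ℝ) => w d - w 0) :=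
  (measurable_eval d).sub (measurable_eval 0)

lemma gauss_pos {d : ℝ≥0} (hd : 0 < d) {s : Set ℝ} (hs : volume s ≠ 0) :
    0 < gaussianReal 0 d s := by
  rw [pos_iff_ne_zero]
  intro h
  exact hs ((gaussianReal_absolutelyContinuous' 0 hd.ne') h)

lemma pos_up (hW : IsWiener W) {d : ℝ≥0} (hd : 0 < d) : 0 < W {w | w 0 < w d} := by
  have h1 := gauss_pos hd (s := Ioi 0) (by simp)
  rw [← map_sub hW d, Measure.map_apply (measurable_sub0 d) measurableSet_Ioi] at h1
  convert h1 using 2
  ext w
  simp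

lemma pos_down (hW : IsWiener W) {d : ℝ≥0} (hd : 0 < d) : 0 < W {w | w d ≤ w 0} := by
  have h1 := gauss_pos hd (s := Iic 0) (by simp)
  rw [← map_sub hW d, Measure.map_apply (measurable_sub0 d) measurableSet_Iic] at h1
  convert h1 using 2
  ext w
  simp

lemma age_zero_of {d : ℝ≥0} {w : C(ℝ≥0, ℝ)} (h : w d ≤ w 0) : age d w 0 = 0 := by
  have : (0:ℝ≥0) ∈ ageSet d w 0 := ⟨zero_le, Or.inr (by simpa using h)⟩
  exact le_antisymm (age_le_of_mem this) zero_le

lemma age_pos_of {d : ℝ≥0} (hd : 0 < d) {w : C(ℝ≥0, ℝ)} (h : w 0 < w d) : 0 < age d w 0 := by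
  by_contra hc
  have h0 : age d w 0 = 0 := le_antisymm (not_lt.1 hc) zero_le
  have h1 := age_prop (show age d w 0 < d by rw [h0]; exact hd)
  rw [h0] at h1
  simp only [zero_add] at h1
  exact absurd h1 (not_le.2 h)

lemma integrable_exp_age1 (hW : IsWiener W) (d : ℝ≥0) (c : ℝ) :
    Integrable (fun w => Real.exp (c * (age d w 0 : ℝ))) W := by
  have hWp : IsProbabilityMeasure W := hW.isGaussianProcess.isProbabilityMeasure
  refine Integrable.of_bound ?_ (Real.exp (|c| * d)) (Eventually.of_forall fun w => ?_)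
  · apply Measurable.aestronglyMeasurable
    exact Real.measurable_exp.comp (measurable_const.mul
      ((measurable_age_fix d 0).coe_nnreal_real))
  · rw [Real.norm_eq_abs, abs_of_pos (Real.exp_pos _)]
    apply Real.exp_le_exp.2
    refine (le_abs_self _).trans ?_
    rw [abs_mul]
    gcongr
    exact abs_age_le d w 0

/-- strict gain -/
lemma one_lt_prod (hW : IsWiener W) {d : ℝ≥0} (hd : 0 < d) : 1 < E2 W d * E1 W d := by
  have hWp : IsProbabilityMeasure W := hW.isGaussianProcess.isProbabilityMeasure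
  have i1 : Integrable (fun w => Real.exp ((age d w 0 : ℝ))) W := by
    simpa using integrable_exp_age1 hW d 1
  have i2 : Integrable (fun w => Real.exp (-(age d w 0 : ℝ))) W := by
    simpa using integrable_exp_age1 hW d (-1)
  set c := ∫ w, Real.exp ((age d w 0 : ℝ)) ∂W with hc
  set b := ∫ w, Real.exp (-(age d w 0 : ℝ)) ∂W with hb
  have e2 : E2 W d = ENNReal.ofReal c :=
    (ofReal_integral_eq_lintegral_ofReal i1 (Eventually.of_forall fun w => (Real.exp_pos _).le)).symm
  have e1 : E1 W d = ENNReal.ofReal b :=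
    (ofReal_integral_eq_lintegral_ofReal i2 (Eventually.of_forall fun w => (Real.exp_pos _).le)).symm
  have hc1 : 1 ≤ c := by
    calc (1:ℝ) = ∫ _w, (1:ℝ) ∂W := by simp
      _ ≤ c := by
        apply integral_mono (integrable_const _) i1
        intro w
        exact Real.one_le_exp (NNReal.coe_nonneg _)
  rw [e2, e1, ← ENNReal.ofReal_mul (by linarith), ← ENNReal.ofReal_one,
    ENNReal.ofReal_lt_ofReal_iff_of_nonneg zero_le_one]
  by_contra hcon
  push Not at hcon
  have hf : ∀ w : C(ℝ≥0, ℝ), (Real.exp (age d w 0 : ℝ) - c) ^ 2 * Real.exp (-(age d w 0 : ℝ)) =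
      Real.exp (age d w 0 : ℝ) - 2 * c + c ^ 2 * Real.exp (-(age d w 0 : ℝ)) := by
    intro w
    have h1 : Real.exp (age d w 0 : ℝ) * Real.exp (-(age d w 0 : ℝ)) = 1 := by
      rw [← Real.exp_add]; simp
    linear_combination (Real.exp (age d w 0 : ℝ) - 2 * c) * h1
  have hint : Integrable (fun w => (Real.exp (age d w 0 : ℝ) - c) ^ 2 *
      Real.exp (-(age d w 0 : ℝ))) W := by
    simp_rw [hf]
    exact (i1.sub (integrable_const _)).add (i2.const_mul _)
  have hval : ∫ w, (Real.exp (age d w 0 : ℝ) - c) ^ 2 * Real.exp (-(age d w 0 : ℝ)) ∂W =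
      c * (c * b - 1) := by
    simp_rw [hf]
    have j1 : Integrable (fun w => Real.exp (age d w 0 : ℝ) - 2 * c) W :=
      i1.sub (integrable_const _)
    have j2 : Integrable (fun w => c ^ 2 * Real.exp (-(age d w 0 : ℝ))) W := i2.const_mul _
    rw [integral_add j1 j2, integral_sub i1 (integrable_const _), integral_const_mul (c ^ 2), ← hc, ← hb]
    simp
    ring
  have hnn : 0 ≤ᵐ[W] fun w => (Real.exp (age d w 0 : ℝ) - c) ^ 2 * Real.exp (-(age d w 0 : ℝ)) :=
    Eventually.of_forall fun w => by positivity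
  have hz : ∫ w, (Real.exp (age d w 0 : ℝ) - c) ^ 2 * Real.exp (-(age d w 0 : ℝ)) ∂W = 0 := by
    apply le_antisymm
    · rw [hval]
      nlinarith
    · exact integral_nonneg_of_ae hnn
  rw [integral_eq_zero_iff_of_nonneg_ae hnn hint] at hz
  have hae : ∀ᵐ w ∂W, Real.exp (age d w 0 : ℝ) = c := by
    filter_upwards [hz] with w hw
    simp only [Pi.zero_apply, mul_eq_zero] at hw
    rcases hw with hw | hw
    · have := pow_eq_zero_iff (two_ne_zero) |>.1 hw
      linarith
    · exact absurd hw (Real.exp_pos _).ne'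
  have hdown : ∃ w : C(ℝ≥0, ℝ), w d ≤ w 0 ∧ Real.exp (age d w 0 : ℝ) = c := by
    by_contra hno
    push Not at hno
    have : W {w | w d ≤ w 0} = 0 := by
      apply measure_mono_null _ (ae_iff.1 hae)
      intro w hw
      exact hno w hw
    exact absurd this (pos_down hW hd).ne'
  have hup : ∃ w : C(ℝ≥0, ℝ), w 0 < w d ∧ Real.exp (age d w 0 : ℝ) = c := by
    by_contra hno
    push Not at hno
    have : W {w | w 0 < w d} = 0 := by
      apply measure_mono_null _ (ae_iff.1 hae)
      intro w hw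
      exact hno w hw
    exact absurd this (pos_up hW hd).ne'
  obtain ⟨w1, h1, h2⟩ := hdown
  obtain ⟨w2, h3, h4⟩ := hup
  rw [age_zero_of h1] at h2
  simp only [NNReal.coe_zero, Real.exp_zero] at h2
  have h5 : (0:ℝ) < age d w2 0 := by exact_mod_cast age_pos_of hd h3
  have h6 := Real.add_one_lt_exp h5.ne'
  rw [h4, ← h2] at h6
  linarith

lemma prod_lt_top (hW : IsWiener W) (d : ℝ≥0) : E2 W d * E1 W d < ∞ := by
  have hWp : IsProbabilityMeasure W := hW.isGaussianProcess.isProbabilityMeasure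
  have i1 : Integrable (fun w => Real.exp ((age d w 0 : ℝ))) W := by
    simpa using integrable_exp_age1 hW d 1
  have i2 : Integrable (fun w => Real.exp (-(age d w 0 : ℝ))) W := by
    simpa using integrable_exp_age1 hW d (-1)
  have e2 : E2 W d = ENNReal.ofReal (∫ w, Real.exp ((age d w 0 : ℝ)) ∂W) :=
    (ofReal_integral_eq_lintegral_ofReal i1 (Eventually.of_forall fun w => (Real.exp_pos _).le)).symm
  have e1 : E1 W d = ENNReal.ofReal (∫ w, Real.exp (-(age d w 0 : ℝ)) ∂W) :=
    (ofReal_integral_eq_lintegral_ofReal i2 (Eventually.of_forall fun w => (Real.exp_pos _).le)).symm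
  rw [e1, e2]
  exact ENNReal.mul_lt_top ENNReal.ofReal_lt_top ENNReal.ofReal_lt_top

end Pool.Agent.R966.FBM
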