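import Pool.Agent.R966.FBM.Decomp

set_option autoImplicit false

open scoped ENNReal NNReal Topology
open MeasureTheory ProbabilityTheory Set Filter
open Pool.Agent.R967.FB

namespace Pool.Agent.R966.FBM

variable {W : Measure C(ℝ≥0, ℝ)}

lemma rule_lt_of {d : ℝ≥0} (hd : 0 < d) {b : C(ℝ≥0, ℝ)} (h : b d < b (d + d)) :
    rule d b < 2 * d := by
  unfold rule
  rw [two_mul]
  gcongr
  -- some `a < d` is in the set
  have hcont : Continuous (fun a : ℝ≥0 => b (a + d) - b a) := by fun_prop
  have hopen : ∀ᶠ a in 𝓝 d, 0 < b (a + d) - b a := by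
    have : {a : ℝ≥0 | 0 < b (a + d) - b a} ∈ 𝓝 d :=
      (isOpen_lt continuous_const hcont).mem_nhds (by simp only [mem_ofPred_eq]; linarith)
    exact this
  have : (𝓝[<] d).NeBot := nhdsLT_neBot_of_exists_lt ⟨0, hd⟩
  obtain ⟨a, ha1, ha2⟩ := ((hopen.filter_mono nhdsWithin_le_nhds).and
    (self_mem_nhdsWithin : ∀ᶠ a in 𝓝[<] d, a ∈ Iio d)).exists
  refine lt_of_le_of_lt (age_le_of_mem (a := a) ⟨le_of_lt ha2, Or.inr ?_⟩) ha2
  simp only [ContinuousMap.neg_apply, zero_add]
  linarith

lemma lt_rule_of {d : ℝ≥0} (hd : 0 < d) {b : C(ℝ≥0, ℝ)} (h : b d < b 0) :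
    d < rule d b := by
  unfold rule
  have : 0 < age d (-b) 0 := age_pos_of hd (by simp only [ContinuousMap.neg_apply]; linarith)
  exact lt_add_of_pos_right d this

/-- a nondegenerate value of the rule has positive probability -/
lemma rule_mid (hW : IsWiener W) {d : ℝ≥0} (hd : 0 < d) :
    ∃ r : ℝ≥0, 0 < r ∧ 0 < W {w | d + r ≤ rule d w ∧ rule d w < 2 * d} := by
  have hWp : IsProbabilityMeasure W := hW.isGaussianProcess.isProbabilityMeasure
  -- the open event
  have h1 : 0 < W {w | d < rule d w ∧ rule d w < 2 * d} := by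
    have hind := indep_stop_shift hW d
    have hA : MeasurableSet {w : C(ℝ≥0, ℝ) | w d < w 0} :=
      measurableSet_lt (measurable_eval d) (measurable_eval 0)
    have hB : MeasurableSet {w : C(ℝ≥0, ℝ) | w 0 < w d} :=
      measurableSet_lt (measurable_eval 0) (measurable_eval d)
    have h2 := hind.measure_inter_preimage_eq_mul _ _ hA hB
    have e1 : stopc d ⁻¹' {w : C(ℝ≥0, ℝ) | w d < w 0} = {w | w d < w 0} := by
      ext w
      simp [stopc_apply]
    have e2 : W (shift d ⁻¹' {w : C(ℝ≥0, ℝ) | w 0 < w d}) = W {w | w 0 < w d} := by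
      conv_rhs => rw [← map_shift hW d]
      rw [Measure.map_apply (measurable_shift d) hB]
    have pA : 0 < W {w : C(ℝ≥0, ℝ) | w d < w 0} := by
      have h3 := gauss_pos hd (s := Iio 0) (by simp)
      rw [← map_sub hW d, Measure.map_apply (measurable_sub0 d) measurableSet_Iio] at h3
      convert h3 using 2
      ext w
      simp
    rw [e1, e2] at h2
    have h4 : 0 < W ({w : C(ℝ≥0, ℝ) | w d < w 0} ∩ shift d ⁻¹' {w : C(ℝ≥0, ℝ) | w 0 < w d}) := by
      rw [h2]
      exact ENNReal.mul_pos pA.ne' (pos_up hW hd).ne'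
    refine h4.trans_le (measure_mono ?_)
    rintro w ⟨hw1, hw2⟩
    simp only [mem_preimage, mem_ofPred_eq, shift_apply, add_zero] at hw1 hw2
    exact ⟨lt_rule_of hd hw1, rule_lt_of hd (by linarith)⟩
  by_contra hcon
  push Not at hcon
  have hsub : {w | d < rule d w ∧ rule d w < 2 * d} ⊆
      ⋃ n : ℕ, {w : C(ℝ≥0, ℝ) | d + 1 / ((n:ℝ≥0) + 1) ≤ rule d w ∧ rule d w < 2 * d} := by
    rintro w ⟨hw1, hw2⟩
    have h5 : 0 < rule d w - d := tsub_pos_of_lt hw1
    obtain ⟨n, hn⟩ := exists_nat_gt (1 / (rule d w - d))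
    rw [mem_iUnion]
    refine ⟨n, ?_, hw2⟩
    have h6 : 1 / ((n:ℝ≥0) + 1) ≤ rule d w - d := by
      rw [div_le_iff₀ (by positivity)]
      rw [div_lt_iff₀ h5] at hn
      calc (1:ℝ≥0) ≤ n * (rule d w - d) := hn.le
        _ ≤ (n + 1) * (rule d w - d) := by gcongr; exact le_self_add
        _ = (rule d w - d) * (n + 1) := mul_comm _ _
    calc d + 1 / ((n:ℝ≥0) + 1) ≤ d + (rule d w - d) := by gcongr
      _ = rule d w := add_tsub_cancel_of_le hw1.le
  have h0 : W (⋃ n : ℕ, {w : C(ℝ≥0, ℝ) | d + 1 / ((n:ℝ≥0) + 1) ≤ rule d w ∧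
      rule d w < 2 * d}) = 0 := by
    rw [measure_iUnion_null_iff]
    intro n
    have := hcon (1 / ((n:ℝ≥0) + 1)) (by positivity)
    exact le_antisymm this zero_le
  exact absurd (measure_mono_null hsub h0) h1.ne'

/-- the process seen backward from a random time, as a random path -/
noncomputable def YY (R : Om → ℝ) (ω : Om) : C(ℝ≥0, ℝ) :=
  back (fun t => XX t ω) (XX_cont ω) (R ω)

lemma measurable_XXr {R : Om → ℝ} (hR : Measurable R) : Measurable fun ω => XX (R ω) ω := by
  have h := measurable_uncurry_of_continuous_of_measurable (u := XX) XX_cont measurable_XX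
  exact h.comp (hR.prodMk measurable_id)

lemma measurable_YY {R : Om → ℝ} (hR : Measurable R) : Measurable (YY R) := by
  apply measurable_path
  intro t
  exact (measurable_XXr (hR.sub_const _)).sub (measurable_XXr hR)

/-- the process is not a backward Brownian motion -/
theorem not_bbm (hW : IsWiener W) : ¬ IsBBM XX (PP W) := by
  have hWp : IsProbabilityMeasure W := hW.isGaussianProcess.isProbabilityMeasure
  have hP := prob_PP hW
  rintro ⟨S, hSm, hSlim, hSB⟩
  set R : ℕ → Om → ℝ := fun n ω => -S n ω with hR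
  have hRm : ∀ n, Measurable (R n) := fun n => (hSm n).neg
  have hY : ∀ n, (PP W).map (YY (R n)) = W := by
    intro n
    refine map_eq_of_isPreBrownian (measurable_YY (hRm n)) ?_ hW.toIsPreBrownianReal
    have h := (hSB n).toIsPreBrownianReal
    have e : (fun (t : ℝ≥0) (ω : Om) => YY (R n) ω t) = fwd (fun t => XX (-t)) (S n) := by
      funext t ω
      simp only [YY, back_apply, fwd, hR]
      have e1 : -S n ω - (t:ℝ) = -(S n ω + t) := by ring
      rw [e1]
    rw [e]
    exact h
  -- a constant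
  set d : ℝ≥0 := 1 / 2 with hd
  have hdpos : 0 < d := by positivity
  obtain ⟨r, hr, hκ⟩ := rule_mid hW hdpos
  set κ := W {w | d + r ≤ rule d w ∧ rule d w < 2 * d} with hκdef
  have hEm : MeasurableSet {w : C(ℝ≥0, ℝ) | d + r ≤ rule d w ∧ rule d w < 2 * d} := by
    have m1 : MeasurableSet {w : C(ℝ≥0, ℝ) | d + r ≤ rule d w} :=
      measurableSet_le measurable_const (measurable_rule d)
    have m2 : MeasurableSet {w : C(ℝ≥0, ℝ) | rule d w < 2 * d} :=
      measurableSet_lt (measurable_rule d) measurable_const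
    exact m1.inter m2
  -- the main inequality
  have main : ∀ (n : ℕ) (L : ℕ), κ ≤ (PP W) {ω | R n ω < 0} + (PP W) {ω | (L:ℝ) ≤ R n ω} := by
    intro n L
    have hJt : Tendsto (fun l => Nat.pair 0 l) atTop atTop :=
      tendsto_atTop_mono (fun l => Nat.right_le_pair 0 l) tendsto_id
    have hcore := core W hW (L : ℝ≥0) r hr
    have hlim : Tendsto (fun l => W {w | r + pos w 0 (Nat.pair 0 l + 1) ≤
        pos w (L : ℝ≥0) (Nat.pair 0 l + 1)}) atTop (𝓝 0) :=
      (hcore.comp (tendsto_add_atTop_nat 1)).comp hJt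
    have hall : ∀ l : ℕ, κ ≤ ((PP W) {ω | R n ω < 0} + (PP W) {ω | (L:ℝ) ≤ R n ω}) +
        W {w | r + pos w 0 (Nat.pair 0 l + 1) ≤ pos w (L : ℝ≥0) (Nat.pair 0 l + 1)} := by
      intro l
      set j := Nat.pair 0 l with hj
      have hdj : dd j = d := by rw [hj, dd_pair, hd]; norm_num
      set k : ℤ := -((j:ℤ) + 1) ^ 2 with hk
      have e1 : κ = (PP W) (bb k ⁻¹' {w | d + r ≤ rule d w ∧ rule d w < 2 * d}) := by
        rw [hκdef, ← Measure.map_apply (measurable_bb k) hEm, map_bb hW k]
      have hm : MeasurableSet {w : C(ℝ≥0, ℝ) | r + pos w 0 (j + 1) ≤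
          pos w (L : ℝ≥0) (j + 1)} :=
        measurableSet_le ((measurable_pos 0 (j + 1)).const_add r) (measurable_pos _ (j + 1))
      have e2 : W {w | r + pos w 0 (j + 1) ≤ pos w (L : ℝ≥0) (j + 1)} =
          (PP W) (YY (R n) ⁻¹' {w | r + pos w 0 (j + 1) ≤ pos w (L : ℝ≥0) (j + 1)}) := by
        rw [← Measure.map_apply (measurable_YY (hRm n)) hm, hY n]
      rw [e1, e2]
      refine le_trans (measure_mono (t := ({ω | R n ω < 0} ∪ {ω | (L:ℝ) ≤ R n ω}) ∪
        (YY (R n) ⁻¹' {w | r + pos w 0 (j + 1) ≤ pos w (L : ℝ≥0) (j + 1)})) ?_) ?_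
      · intro ω hω
        simp only [mem_preimage, mem_ofPred_eq] at hω
        by_cases h1 : R n ω < 0
        · exact Or.inl (Or.inl h1)
        · by_cases h2 : (L:ℝ) ≤ R n ω
          · exact Or.inl (Or.inr h2)
          · right
            push Not at h1 h2
            have hLL : LL k ω = rule d (bb k ω) := by
              simp only [LL]
              rw [hk, TT_special, hdj]
            exact chain_len (hx := XX_cont ω) (lens ω) (R := R n ω) (L := (L : ℝ≥0))
              (by push_cast; linarith) h1 j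
              (by rw [← hk, hLL, hdj]; exact hω.1) (by rw [← hk, hLL, hdj]; exact hω.2)
      · refine (measure_union_le _ _).trans ?_
        gcongr
        exact measure_union_le _ _
    have hlim2 : Tendsto (fun l => ((PP W) {ω | R n ω < 0} + (PP W) {ω | (L:ℝ) ≤ R n ω}) +
        W {w | r + pos w 0 (Nat.pair 0 l + 1) ≤ pos w (L : ℝ≥0) (Nat.pair 0 l + 1)}) atTop
        (𝓝 (((PP W) {ω | R n ω < 0} + (PP W) {ω | (L:ℝ) ≤ R n ω}) + 0)) :=
      tendsto_const_nhds.add hlim
    rw [add_zero] at hlim2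
    exact ge_of_tendsto' hlim2 hall
  -- let L tend to infinity
  have main2 : ∀ n : ℕ, κ ≤ (PP W) {ω | R n ω < 0} := by
    intro n
    have h1 : Tendsto (fun L : ℕ => (PP W) {ω | (L:ℝ) ≤ R n ω}) atTop (𝓝 0) := by
      have h2 : (⋂ L : ℕ, {ω : Om | (L:ℝ) ≤ R n ω}) = ∅ := by
        ext ω
        simp only [mem_iInter, mem_ofPred_eq, mem_empty_iff_false, iff_false, not_forall, not_le]
        exact exists_nat_gt _
      rw [← measure_empty (μ := PP W), ← h2]
      refine tendsto_measure_iInter_atTop ?_ ?_ ⟨0, measure_ne_top _ _⟩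
      · intro L
        exact (measurableSet_le measurable_const (hRm n)).nullMeasurableSet
      · intro a b hab ω hω
        simp only [mem_ofPred_eq] at hω ⊢
        have : (a:ℝ) ≤ b := by exact_mod_cast hab
        linarith
    have h3 : Tendsto (fun L : ℕ => (PP W) {ω | R n ω < 0} + (PP W) {ω | (L:ℝ) ≤ R n ω}) atTop
        (𝓝 ((PP W) {ω | R n ω < 0} + 0)) := tendsto_const_nhds.add h1
    rw [add_zero] at h3
    exact ge_of_tendsto' h3 (fun L => main n L)
  -- let n tend to infinity
  have h1 : Tendsto (fun N : ℕ => (PP W) (⋃ n ∈ Ici N, {ω | R n ω < 0})) atTop (𝓝 0) := by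
    have h2 : (PP W) (⋂ N : ℕ, ⋃ n ∈ Ici N, {ω | R n ω < 0}) = 0 := by
      have h3 : ∀ᵐ ω ∂(PP W), ω ∉ (⋂ N : ℕ, ⋃ n ∈ Ici N, {ω | R n ω < 0}) := by
        filter_upwards [hSlim] with ω hω
        have h4 := (tendsto_atBot.1 hω) 0
        obtain ⟨N, hN⟩ := eventually_atTop.1 h4
        simp only [mem_iInter, mem_iUnion, mem_ofPred_eq, not_forall, not_exists, not_lt, mem_Ici]
        refine ⟨N, fun n hn => ?_⟩
        have := hN n hn
        simp only [hR]
        linarith
      have := measure_eq_zero_iff_ae_notMem.2 h3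
      exact this
    rw [← h2]
    refine tendsto_measure_iInter_atTop ?_ ?_ ⟨0, measure_ne_top _ _⟩
    · intro N
      refine (MeasurableSet.biUnion (to_countable _) fun n _ => ?_).nullMeasurableSet
      exact measurableSet_lt (hRm n) measurable_const
    · intro a b hab
      exact biUnion_subset_biUnion_left (Ici_subset_Ici.2 hab)
  have h2 : κ ≤ 0 := by
    refine ge_of_tendsto' h1 (fun N => (main2 N).trans (measure_mono ?_))
    intro ω hω
    simp only [mem_iUnion]
    exact ⟨N, self_mem_Ici, hω⟩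
  exact absurd h2 (not_le.2 hκ)

end Pool.Agent.R966.FBM
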