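import Pool.Agent.R966.FBM.Age

set_option autoImplicit false

open scoped ENNReal NNReal Topology
open MeasureTheory ProbabilityTheory Set Filter
open Pool.Agent.R967.FB

namespace Pool.Agent.R966.FBM

lemma lt_age_iff {d c : ℝ≥0} (hc : c < d) (y : C(ℝ≥0, ℝ)) (t : ℝ≥0) :
    c < age d y t ↔ ∀ a ∈ Icc 0 c, y (t + a) < y (t + a + d) := by
  constructor
  · intro h a ha
    exact lt_of_lt_age (ha.2.trans_lt h)
  · intro h
    by_contra hn
    push Not at hn
    have h1 := age_prop (hn.trans_lt hc)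
    exact absurd (h _ ⟨zero_le, hn⟩) (not_lt.2 h1)

lemma measurable_age (d : ℝ≥0) : Measurable (fun p : C(ℝ≥0, ℝ) × ℝ≥0 => age d p.1 p.2) := by
  have h : LowerSemicontinuous (fun p : C(ℝ≥0, ℝ) × ℝ≥0 => age d p.1 p.2) := by
    rw [lowerSemicontinuous_iff_isOpen_preimage]
    intro c
    rcases le_or_gt d c with hc | hc
    · have : (fun p : C(ℝ≥0, ℝ) × ℝ≥0 => age d p.1 p.2) ⁻¹' Ioi c = ∅ := by
        ext p
        simp only [mem_preimage, mem_Ioi, mem_empty_iff_false, iff_false, not_lt]
        exact (age_le _ _ _).trans hc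
      rw [this]
      exact isOpen_empty
    · have : (fun p : C(ℝ≥0, ℝ) × ℝ≥0 => age d p.1 p.2) ⁻¹' Ioi c =
          {p : C(ℝ≥0, ℝ) × ℝ≥0 | ∀ a ∈ Icc 0 c, p.1 (p.2 + a) < p.1 (p.2 + a + d)} := by
        ext p
        exact lt_age_iff hc p.1 p.2
      rw [this, isOpen_iff_eventually]
      intro p hp
      apply isCompact_Icc.eventually_forall_of_forall_eventually
      intro a ha
      have hopen : IsOpen {z : (C(ℝ≥0, ℝ) × ℝ≥0) × ℝ≥0 |
          z.1.1 (z.1.2 + z.2) < z.1.1 (z.1.2 + z.2 + d)} := by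
        apply isOpen_lt <;> fun_prop
      exact hopen.mem_nhds (hp a ha)
  exact h.measurable

/-- the path stopped at time `c` -/
def stopc (c : ℝ≥0) (w : C(ℝ≥0, ℝ)) : C(ℝ≥0, ℝ) := ⟨fun t => w (min t c), by fun_prop⟩

@[simp] lemma stopc_apply (c : ℝ≥0) (w : C(ℝ≥0, ℝ)) (t : ℝ≥0) : stopc c w t = w (min t c) := rfl

lemma measurable_stopc (c : ℝ≥0) : Measurable (stopc c) :=
  measurable_path fun t => measurable_eval (min t c)

lemma measurable_pos (L : ℝ≥0) (j : ℕ) : Measurable (fun w : C(ℝ≥0, ℝ) => pos w L j) := by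
  induction j with
  | zero => exact measurable_const
  | succ j ih =>
    have h1 : Measurable (fun w : C(ℝ≥0, ℝ) => pos w L j + 2 * (j:ℝ≥0)) := ih.add_const _
    have h2 := (measurable_age (dd j)).comp (measurable_id.prodMk h1)
    exact h1.add (measurable_const.add h2)

variable {W : Measure C(ℝ≥0, ℝ)}

lemma indep_stop_shift (hW : IsWiener W) (c : ℝ≥0) : IndepFun (stopc c) (shift c) W := by
  have h1 := (hW.toIsPreBrownianReal.indepFun_shift c).symm
  rw [IndepFun_iff_Indep] at h1 ⊢
  refine indep_of_indep_of_le_left (indep_of_indep_of_le_right h1 ?_) ?_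
  · rw [measurableSpace_eq_comap, MeasurableSpace.comap_comp]
    exact le_rfl
  · rw [measurableSpace_eq_comap, MeasurableSpace.comap_comp]
    have : ev ∘ stopc c = (fun (f : Iic c → ℝ) (t : ℝ≥0) => f ⟨min t c, mem_Iic.2 (min_le_right _ _)⟩) ∘
        (fun (w : C(ℝ≥0, ℝ)) (t : Iic c) => w t) := rfl
    rw [this, ← MeasurableSpace.comap_comp]
    apply MeasurableSpace.comap_mono
    apply measurable_iff_comap_le.1
    exact measurable_pi_lambda _ fun t => measurable_pi_apply _

lemma map_stop_shift (hW : IsWiener W) (c : ℝ≥0) :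
    W.map (fun w => (stopc c w, shift c w)) = (W.map (stopc c)).prod W := by
  have hWp : IsProbabilityMeasure W := hW.isGaussianProcess.isProbabilityMeasure
  have h := (indepFun_iff_map_prod_eq_prod_map_map (measurable_stopc c).aemeasurable
    (measurable_shift c).aemeasurable).1 (indep_stop_shift hW c)
  rw [h, map_shift hW c]

/-- integration over the past and the future of `c` separately -/
lemma lintegral_stop_shift (hW : IsWiener W) (c : ℝ≥0) {f : C(ℝ≥0, ℝ) × C(ℝ≥0, ℝ) → ℝ≥0∞}
    (hf : Measurable f) :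
    ∫⁻ w, f (stopc c w, shift c w) ∂W = ∫⁻ u, ∫⁻ v, f (stopc c u, v) ∂W ∂W := by
  have hWp : IsProbabilityMeasure W := hW.isGaussianProcess.isProbabilityMeasure
  have hm : Measurable (fun w => (stopc c w, shift c w)) :=
    (measurable_stopc c).prodMk (measurable_shift c)
  have hm2 := Measure.isProbabilityMeasure_map (μ := W) (measurable_stopc c).aemeasurable
  rw [← lintegral_map hf hm, map_stop_shift hW c, lintegral_prod _ hf.aemeasurable,
    lintegral_map hf.lintegral_prod_right' (measurable_stopc c)]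

end Pool.Agent.R966.FBM
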