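import Pool.Agent.R966.FBM.Gain

set_option autoImplicit false

open scoped ENNReal NNReal Topology
open MeasureTheory ProbabilityTheory Set Filter
open Pool.Agent.R967.FB

namespace Pool.Agent.R966.FBM

variable {W : Measure C(ℝ≥0, ℝ)}

/-- the length of the window -/
noncomputable def len (L : ℝ≥0) (j : ℕ) (w : C(ℝ≥0, ℝ)) : ℝ := (pos w L j : ℝ) - pos w 0 j

lemma len_nonneg (L : ℝ≥0) (j : ℕ) (w : C(ℝ≥0, ℝ)) : 0 ≤ len L j w := by
  unfold len
  have : pos w 0 j ≤ pos w L j := pos_mono w zero_le j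
  have h : (pos w 0 j : ℝ) ≤ pos w L j := by exact_mod_cast this
  linarith

lemma measurable_len (L : ℝ≥0) (j : ℕ) : Measurable (len L j) :=
  (measurable_pos L j).coe_nnreal_real.sub (measurable_pos 0 j).coe_nnreal_real

lemma len_succ (L : ℝ≥0) (j : ℕ) (w : C(ℝ≥0, ℝ)) :
    len L (j + 1) w = len L j w + ((age (dd j) w (pos w L j + 2 * j) : ℝ) -
      age (dd j) w (pos w 0 j + 2 * j)) := by
  unfold len
  rw [pos_succ, pos_succ]
  push_cast
  ring

lemma len_le (L : ℝ≥0) (j : ℕ) (w : C(ℝ≥0, ℝ)) : len L j w ≤ L + j := by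
  induction j with
  | zero => simp [len, pos]
  | succ j ih =>
    rw [len_succ]
    have h1 := abs_age_le (dd j) w (pos w L j + 2 * j)
    have h2 : (dd j : ℝ) ≤ 1 := by
      have := dd_le j
      have h3 : (dd j : ℝ) ≤ ((1/2 : ℝ≥0) : ℝ) := by exact_mod_cast this
      push_cast at h3
      linarith
    have h4 : (0:ℝ) ≤ age (dd j) w (pos w 0 j + 2 * j) := NNReal.coe_nonneg _
    have h5 := le_abs_self (age (dd j) w (pos w L j + 2 * j) : ℝ)
    push_cast
    linarith

/-- one round -/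
lemma step (hW : IsWiener W) (L : ℝ≥0) (j : ℕ) (hL : L ≤ j) (lam : ℝ) (G : ℝ → ℝ≥0∞)
    (hGm : Measurable G)
    (hG : ∀ x y : ℝ≥0, y ≤ x → G ((x : ℝ) - y) ≤
      ∫⁻ v, ENNReal.ofReal (Real.exp (-lam * ((age (dd j) v x : ℝ) - age (dd j) v y))) ∂W) :
    ∫⁻ w, ENNReal.ofReal (Real.exp (-lam * len L j w)) * G (len L j w) ∂W ≤
      ∫⁻ w, ENNReal.ofReal (Real.exp (-lam * len L (j + 1) w)) ∂W := by
  have hWp : IsProbabilityMeasure W := hW.isGaussianProcess.isProbabilityMeasure
  set c : ℝ≥0 := L + ((j * j : ℕ) : ℝ≥0) with hc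
  -- positions depend on the stopped path
  have hst : ∀ w t, t ≤ c → stopc c w t = w t := by
    intro w t ht
    rw [stopc_apply, min_eq_left ht]
  have hposL : ∀ w, pos (stopc c w) L j = pos w L j := fun w =>
    pos_congr (hst w) j le_rfl
  have hpos0 : ∀ w, pos (stopc c w) 0 j = pos w 0 j := fun w =>
    pos_congr (hst w) j (by rw [hc]; gcongr; exact zero_le)
  have hcb : ∀ w, c ≤ pos w 0 j + 2 * j := by
    intro w
    have h1 := le_pos w 0 j
    calc c ≤ (j:ℝ≥0) + ((j * j : ℕ) : ℝ≥0) := by rw [hc]; gcongr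
      _ ≤ ((j * (j - 1) : ℕ) : ℝ≥0) + 2 * j := by
        rcases j with _ | j
        · simp
        · norm_cast
          simp only [Nat.add_sub_cancel]
          nlinarith
      _ ≤ _ := by gcongr
  have hca : ∀ w, c ≤ pos w L j + 2 * j := fun w =>
    (hcb w).trans (by gcongr; exact pos_mono w zero_le j)
  -- the function of past and future
  set f : C(ℝ≥0, ℝ) × C(ℝ≥0, ℝ) → ℝ≥0∞ := fun p =>
    ENNReal.ofReal (Real.exp (-lam * len L j p.1)) *
      ENNReal.ofReal (Real.exp (-lam * ((age (dd j) p.2 (pos p.1 L j + 2 * j - c) : ℝ) -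
        age (dd j) p.2 (pos p.1 0 j + 2 * j - c)))) with hf
  have hag : ∀ K : ℝ≥0, Measurable (fun p : C(ℝ≥0, ℝ) × C(ℝ≥0, ℝ) =>
      age (dd j) p.2 (pos p.1 K j + 2 * j - c)) := by
    intro K
    have h1 : Measurable (fun p : C(ℝ≥0, ℝ) × C(ℝ≥0, ℝ) => pos p.1 K j + 2 * (j:ℝ≥0) - c) :=
      (((measurable_pos K j).comp measurable_fst).add_const _).sub_const _
    exact (measurable_age (dd j)).comp (measurable_snd.prodMk h1)
  have hfm1 : Measurable (fun p : C(ℝ≥0, ℝ) × C(ℝ≥0, ℝ) =>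
      ENNReal.ofReal (Real.exp (-lam * len L j p.1))) :=
    (Real.measurable_exp.comp (((measurable_len L j).comp measurable_fst).const_mul
      (-lam))).ennreal_ofReal
  have hfm2 : Measurable (fun p : C(ℝ≥0, ℝ) × C(ℝ≥0, ℝ) =>
      ENNReal.ofReal (Real.exp (-lam * ((age (dd j) p.2 (pos p.1 L j + 2 * j - c) : ℝ) -
        age (dd j) p.2 (pos p.1 0 j + 2 * j - c))))) :=
    (Real.measurable_exp.comp (((hag L).coe_nnreal_real.sub
      (hag 0).coe_nnreal_real).const_mul (-lam))).ennreal_ofReal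
  have hfm : Measurable f := hfm1.mul hfm2
  have hlen : ∀ w, len L j (stopc c w) = len L j w := by
    intro w
    unfold len
    rw [hposL, hpos0]
  have e : ∀ w, ENNReal.ofReal (Real.exp (-lam * len L (j + 1) w)) =
      f (stopc c w, shift c w) := by
    intro w
    simp only [hf]
    rw [hlen, hposL, hpos0, ← age_shift, ← age_shift, add_tsub_cancel_of_le (hca w),
      add_tsub_cancel_of_le (hcb w), ← ENNReal.ofReal_mul (Real.exp_pos _).le, ← Real.exp_add,
      len_succ]
    congr 2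
    ring
  rw [lintegral_congr e, lintegral_stop_shift hW c hfm]
  apply lintegral_mono
  intro u
  simp only [hf]
  have hm2 : Measurable (fun v : C(ℝ≥0, ℝ) =>
      ENNReal.ofReal (Real.exp (-lam * ((age (dd j) v (pos (stopc c u) L j + 2 * j - c) : ℝ) -
        age (dd j) v (pos (stopc c u) 0 j + 2 * j - c))))) :=
    (Real.measurable_exp.comp (((measurable_age_fix _ _).coe_nnreal_real.sub
      (measurable_age_fix _ _).coe_nnreal_real).const_mul (-lam))).ennreal_ofReal
  rw [lintegral_const_mul _ hm2, hlen]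
  gcongr
  refine le_trans (le_of_eq ?_) (hG _ _ ?_)
  · rw [hposL, hpos0, NNReal.coe_sub (hca u), NNReal.coe_sub (hcb u)]
    congr 1
    unfold len
    push_cast
    ring
  · apply tsub_le_tsub_right
    gcongr
    rw [hposL, hpos0]
    exact pos_mono u zero_le j

end Pool.Agent.R966.FBM
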