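import Pool.Agent.R966.FBM.Defs

set_option autoImplicit false

open scoped ENNReal NNReal Topology
open MeasureTheory ProbabilityTheory Set Filter
open Pool.Agent.R967.FB

namespace Pool.Agent.R966.FBM

/-- Existence of the Wiener measure on the path space. -/
def StmtWiener : Prop := ∃ W : Measure C(ℝ≥0, ℝ), IsWiener W

/-- A Brownian motion with continuous paths is a Brownian motion with respect to a normal
filtration. -/
def StmtFilt : Prop := ∀ (Ω : Type) (mΩ : MeasurableSpace Ω) (P : Measure Ω)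
  (_ : IsProbabilityMeasure P) (B : ℝ≥0 → Ω → ℝ), IsBrownianReal B P →
  (∀ ω, Continuous (B · ω)) → (∀ t, Measurable (B t)) →
  ∃ F : Filtration ℝ≥0 mΩ, IsNormal P F ∧ (∀ t, Measurable[F t] (B t)) ∧
    ∀ s : ℝ≥0, Indep (F s)
      (MeasurableSpace.comap (fun ω (t : ℝ≥0) => B (s + t) ω - B s ω) inferInstance) P

/-- Starting times of the pieces. -/
noncomputable def SS (T : ℤ → ℝ≥0) (k : ℤ) : ℝ :=
  if 0 ≤ k then ∑ i ∈ Finset.Ico 0 k, (T i : ℝ) else -∑ i ∈ Finset.Ico k 0, (T i : ℝ)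

/-- Number of pieces that matter at time `t`. -/
noncomputable def NN (t : ℝ) : ℤ := 2 * (⌈|t|⌉ + 1)

/-- The pieces `b k` on `[0, T k]`, put one after the other. -/
noncomputable def glue (b : ℤ → C(ℝ≥0, ℝ)) (T : ℤ → ℝ≥0) (t : ℝ) : ℝ :=
  ∑ k ∈ Finset.Ico (-NN t) (NN t),
    (b k (min (t - SS T k).toNNReal (T k)) - if k < 0 then b k (T k) else 0)

/-- The glued path is continuous and consists of the pieces. -/
def StmtGlue : Prop := ∀ (b : ℤ → C(ℝ≥0, ℝ)) (T : ℤ → ℝ≥0), (∀ k, b k 0 = 0) →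
  (∀ n : ℕ, (n : ℝ) ≤ SS T n) → (∀ n : ℕ, SS T (-(2 * n)) ≤ -(n : ℝ)) →
  Continuous (glue b T) ∧
  ∀ (k : ℤ) (t : ℝ≥0), t ≤ T k → glue b T (SS T k + t) - glue b T (SS T k) = b k t

/-- The glued process is measurable. -/
def StmtGlueMeas : Prop := ∀ (Ω : Type) (_ : MeasurableSpace Ω) (b : ℤ → Ω → C(ℝ≥0, ℝ))
  (T : ℤ → Ω → ℝ≥0), (∀ k, Measurable (b k)) → (∀ k, Measurable (T k)) →
  ∀ t : ℝ, Measurable fun ω => glue (fun k => b k ω) (fun k => T k ω) t

end Pool.Agent.R966.FBM
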